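import Pool.Agent.Lib.MP_80160f_co.PL.Spec

/-!
# MP_80160f_co, part PL : from relations to 2-bases
-/

set_option autoImplicit false

namespace TB.PL

open Finset

universe u

theorem fBase : S_Base.{u} := by
  classical
  intro V _ _ H v E hne hR
  set A : Set (Sym2 ({v}ᶜ : Set V)) :=
    {e | ∃ p q : ({v}ᶜ : Set V), e = s(p, q) ∧ H.Adj (p : V) q ∧ E p q} with hA
  have hsub : A ⊆ (H.induce ({v}ᶜ : Set V)).edgeSet := by
    rintro e ⟨p, q, he, hpq, -⟩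
    rw [he, SimpleGraph.mem_edgeSet]
    exact hpq
  have hmem : ∀ p : V, p ≠ v → p ∈ ({v}ᶜ : Set V) := fun p hp => hp
  have hmem' : ∀ p : V, p ∈ ({v}ᶜ : Set V) → p ≠ v := fun p hp => hp
  have hCl : Cl H v E (fun p q => ∃ (hp : p ∈ ({v}ᶜ : Set V)) (hq : q ∈ ({v}ᶜ : Set V)),
      Same (gw (H.induce ({v}ᶜ : Set V)) A) ⟨p, hp⟩ ⟨q, hq⟩) := by
    refine ⟨?_, ?_, ?_, ?_, ?_⟩
    · intro p hp
      exact ⟨hmem p hp, hmem p hp, Same.refl _ _⟩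
    · rintro p q ⟨hp, hq, h⟩
      exact ⟨hq, hp, h.symm⟩
    · rintro p q s ⟨hp, hq, h⟩ ⟨hq', hs, h'⟩
      exact ⟨hp, hs, h.trans h'⟩
    · intro p q hp hq hpq hE
      refine ⟨hmem p hp, hmem q hq, same_of_two ?_ ?_⟩
      · intro h
        exact hpq.ne (congrArg Subtype.val h)
      · exact (gw_two (G := H.induce ({v}ᶜ : Set V)) (x := ⟨p, hmem p hp⟩) (y := ⟨q, hmem q hq⟩)
          hpq ⟨⟨p, hmem p hp⟩, ⟨q, hmem q hq⟩, rfl, hpq, hE⟩)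
    · rintro p q p' q' hp hq hp' hq' ⟨h1, h1', h⟩ ⟨h2, h2', h'⟩ hne' hpq hpq'
      refine ⟨h1, h2, same_of_pairs h h' ?_ ?_ ?_⟩
      · rintro ⟨e1, e2⟩
        exact hne' ⟨congrArg Subtype.val e1, congrArg Subtype.val e2⟩
      · exact gw_one (G := H.induce ({v}ᶜ : Set V)) (x := ⟨p, h1⟩) (y := ⟨q, h2⟩) hpq
      · exact gw_one (G := H.induce ({v}ᶜ : Set V)) (x := ⟨p', h1'⟩) (y := ⟨q', h2'⟩) hpq'
  have hall : ∀ x y : ({v}ᶜ : Set V), Same (gw (H.induce ({v}ᶜ : Set V)) A) x y := by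
    intro x y
    obtain ⟨hp, hq, h⟩ := hR _ hCl x y (hmem' _ x.2) (hmem' _ y.2)
    exact h
  obtain ⟨p0, hp0⟩ := hne
  obtain ⟨U, hU, hmax⟩ := exists_max_image
    ((univ : Finset (Finset ({v}ᶜ : Set V))).filter (Clu (gw (H.induce ({v}ᶜ : Set V)) A))) card
    ⟨{⟨p0, hmem p0 hp0⟩}, mem_filter.2 ⟨mem_univ _, Clu.single _⟩⟩
  have hUc := (mem_filter.1 hU).2
  obtain ⟨x, hx⟩ := hUc.nonempty
  have hUu : U = univ := by
    rw [eq_univ_iff_forall]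
    intro y
    obtain ⟨U', hU', hx', hy'⟩ := hall x y
    have h1 : Clu (gw (H.induce ({v}ᶜ : Set V)) A) (U ∪ U') :=
      hU'.union_of_meet hUc ⟨x, mem_inter.2 ⟨hx, hx'⟩⟩
    have h2 := hmax _ (mem_filter.2 ⟨mem_univ _, h1⟩)
    have h3 : U = U ∪ U' := eq_of_subset_of_card_le subset_union_left h2
    rw [h3]
    exact mem_union_right _ hy'
  rw [hUu] at hUc
  exact isKBase_of_clu hsub hUc

end TB.PL
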