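import Pool.Agent.Lib.MP_80160f_co.PL.Spec

/-!
# MP_80160f_co, part PL : a further ear
-/

set_option autoImplicit false

namespace TB.PL

open Finset

universe u

namespace fCoreAux

/-- linear interpolation -/
def lin (s e k i : ℚ) : ℚ := s + (e - s) * (i / k)

theorem lin_lt {s e k i j : ℚ} (hs : s < e) (hk : 0 < k) (hij : i < j) :
    lin s e k i < lin s e k j := by
  unfold lin
  have h1 : i / k < j / k := div_lt_div_of_pos_right hij hk
  have h2 : (e - s) * (i / k) < (e - s) * (j / k) := mul_lt_mul_of_pos_left h1 (by linarith)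
  linarith

theorem lin_le {s e k i j : ℚ} (hs : s < e) (hk : 0 < k) (hij : i ≤ j) :
    lin s e k i ≤ lin s e k j := by
  rcases hij.lt_or_eq with h | h
  · exact (lin_lt hs hk h).le
  · rw [h]

theorem lin_zero (s e k : ℚ) : lin s e k 0 = s := by
  unfold lin
  rw [zero_div, mul_zero, add_zero]

theorem lin_self (s e : ℚ) {k : ℚ} (hk : 0 < k) : lin s e k k = e := by
  unfold lin
  rw [div_self hk.ne', mul_one]
  ring

variable {V : Type u} [DecidableEq V]

/-- the entries of the prolonged ear -/
def en (v x y : V) (Q : List V) (j : ℕ) : V := (x :: (Q ++ [y])).getD j v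

theorem en_zero (v x y : V) (Q : List V) : en v x y Q 0 = x := rfl

theorem en_succ (v x y : V) (Q : List V) {j : ℕ} (hj : j < Q.length) :
    en v x y Q (j + 1) = Q[j] := by
  unfold en
  rw [List.getD_cons_succ, List.getD_append _ _ _ _ hj, List.getD_eq_getElem _ _ hj]

theorem en_last (v x y : V) (Q : List V) : en v x y Q (Q.length + 1) = y := by
  unfold en
  rw [List.getD_cons_succ, List.getD_append_right _ _ _ _ le_rfl]
  simp

theorem en_of_some {v x y q : V} {Q : List V} {j : ℕ} (h : (x :: (Q ++ [y]))[j]? = some q) :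
    en v x y Q j = q := by
  unfold en
  rw [List.getD_eq_getElem?_getD, h]
  rfl

variable {H : SimpleGraph V} {v x y : V} {S : Finset V} {Q : List V}

theorem adj_en (v : V) (h : EarL H S Q x y) {j : ℕ} (hj : j < Q.length + 1) :
    H.Adj (en v x y Q j) (en v x y Q (j + 1)) := by
  have h1 := List.isChain_iff_getElem.mp h.ch j (by simp; omega)
  have e1 : en v x y Q j = (x :: (Q ++ [y]))[j]'(by simp; omega) := by
    unfold en
    rw [List.getD_eq_getElem]
  have e2 : en v x y Q (j + 1) = (x :: (Q ++ [y]))[j + 1]'(by simp; omega) := by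
    unfold en
    rw [List.getD_eq_getElem]
  rw [e1, e2]
  exact h1

theorem en_inj (v : V) (h : EarL H S Q x y) (hxy : x ≠ y) {i j : ℕ} (hi : i < Q.length + 2)
    (hj : j < Q.length + 2) (he : en v x y Q i = en v x y Q j) : i = j := by
  have hnd : (x :: (Q ++ [y])).Nodup := by
    rw [List.nodup_cons, List.nodup_append]
    refine ⟨?_, h.nd, List.nodup_singleton y, ?_⟩
    · rw [List.mem_append, List.mem_singleton, not_or]
      exact ⟨h.xQ, hxy⟩
    · intro p hp q hq hpq
      rw [List.mem_singleton] at hq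
      exact h.yQ (hq ▸ hpq ▸ hp)
  have e1 : en v x y Q i = (x :: (Q ++ [y]))[i]'(by simp; omega) := by
    unfold en
    rw [List.getD_eq_getElem]
  have e2 : en v x y Q j = (x :: (Q ++ [y]))[j]'(by simp; omega) := by
    unfold en
    rw [List.getD_eq_getElem]
  rw [e1, e2] at he
  exact (List.Nodup.getElem_inj_iff hnd).mp he

/-- the position of a vertex of the ear -/
theorem pos (v x y : V) (Q : List V) {p : V} (hp : p ∈ Q) :
    Q.idxOf p < Q.length ∧ en v x y Q (Q.idxOf p + 1) = p := by
  have h1 := List.idxOf_lt_length_iff.mpr hp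
  refine ⟨h1, ?_⟩
  rw [en_succ v x y Q h1, List.getElem_idxOf]

theorem mem_en (v x y : V) (Q : List V) {j : ℕ} (hj : j < Q.length + 2) :
    (j = 0 ∧ en v x y Q j = x) ∨ en v x y Q j ∈ Q ∨ (j = Q.length + 1 ∧ en v x y Q j = y) := by
  rcases Nat.eq_zero_or_pos j with h | h
  · exact Or.inl ⟨h, h ▸ rfl⟩
  · obtain ⟨i, rfl⟩ := Nat.exists_eq_succ_of_ne_zero h.ne'
    by_cases h2 : i < Q.length
    · right
      left
      rw [Nat.succ_eq_add_one, en_succ v x y Q h2]
      exact List.getElem_mem h2
    · right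
      right
      have h3 : i = Q.length := by omega
      subst h3
      exact ⟨rfl, en_last v x y Q⟩

end fCoreAux

open fCoreAux

theorem fCore : S_Core.{u} := by
  intro V _ H v X S l r t a b Q x y hF hE hQ hX hx hy hab hbb
  have hxy : x ≠ y := by
    rintro rfl
    exact lt_irrefl _ hab
  have hk : 0 < Q.length := List.length_pos_iff.mpr hE.ne
  obtain ⟨k, hkd⟩ : ∃ k, k = Q.length := ⟨_, rfl⟩
  have hkq : (0 : ℚ) < (k : ℚ) := by
    rw [hkd]
    exact_mod_cast hk
  obtain ⟨N, hN⟩ : ∃ N, ∀ p ∈ X, t p < N := ⟨X.sup t + 1, fun p hp => Nat.lt_succ_of_le (le_sup hp)⟩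
  obtain ⟨l', hl'⟩ : ∃ l' : V → V, l' = fun p => if p ∈ Q then en v x y Q (Q.idxOf p) else l p :=
    ⟨_, rfl⟩
  obtain ⟨r', hr'⟩ : ∃ r' : V → V, r' = fun p => if p ∈ Q then en v x y Q (Q.idxOf p + 2) else r p :=
    ⟨_, rfl⟩
  obtain ⟨t', ht'⟩ : ∃ t' : V → ℕ, t' = fun p => if p ∈ Q then N else t p := ⟨_, rfl⟩
  obtain ⟨a', ha'⟩ : ∃ a' : V → ℚ, a' = fun p =>
      if p ∈ Q then lin (a x) (a y) k ((Q.idxOf p : ℚ) + 1) else a p := ⟨_, rfl⟩
  obtain ⟨b', hb'⟩ : ∃ b' : V → ℚ, b' = fun p =>
      if p ∈ Q then lin (b x) (b y) k (Q.idxOf p : ℚ) else b p := ⟨_, rfl⟩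
  have hXQ : ∀ p ∈ X, p ∉ Q := fun p hp h => (hQ p h).1 hp
  have oX : ∀ p ∈ X, l' p = l p ∧ r' p = r p ∧ a' p = a p ∧ b' p = b p := by
    intro p hp
    rw [hl', hr', ha', hb']
    simp only [if_neg (hXQ p hp)]
    exact ⟨trivial, trivial, trivial, trivial⟩
  have otX : ∀ p ∈ X, t' p = t p := by
    intro p hp
    rw [ht']
    simp only [if_neg (hXQ p hp)]
  have oQ : ∀ p ∈ Q, l' p = en v x y Q (Q.idxOf p) ∧ r' p = en v x y Q (Q.idxOf p + 2) ∧
      t' p = N ∧ a' p = lin (a x) (a y) k ((Q.idxOf p : ℚ) + 1) ∧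
      b' p = lin (b x) (b y) k (Q.idxOf p : ℚ) := by
    intro p hp
    rw [hl', hr', ha', hb', ht']
    simp only [if_pos hp]
    exact ⟨trivial, trivial, trivial, trivial, trivial⟩
  clear hl' hr' ha' hb' ht'
  -- the entries
  have hen : ∀ j, j < Q.length + 2 → en v x y Q j ∈ X ∪ Q.toFinset := by
    intro j hj
    rw [mem_union, List.mem_toFinset]
    rcases mem_en v x y Q hj with h | h | h
    · left
      rw [h.2]
      exact hx
    · exact Or.inr h
    · left
      rw [h.2]
      exact hy
  have htN : ∀ p ∈ X ∪ Q.toFinset, t' p ≤ N := by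
    intro p hp
    rw [mem_union, List.mem_toFinset] at hp
    rcases hp with h | h
    · rw [otX p h]
      exact (hN p h).le
    · exact (oQ p h).2.2.1.le
  have hvU : v ∉ X ∪ Q.toFinset := by
    rw [mem_union, List.mem_toFinset, not_or]
    exact ⟨hF.vX, fun h => (hQ v h).2.1 rfl⟩
  have hlQ : ∀ p ∈ Q, l' p ≠ v := by
    intro p hp h
    have h1 := hen (Q.idxOf p) (by have := (pos v x y Q hp).1; omega)
    rw [← (oQ p hp).1, h] at h1
    exact hvU h1
  have hrQ : ∀ p ∈ Q, r' p ≠ v := by
    intro p hp h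
    have h1 := hen (Q.idxOf p + 2) (by have := (pos v x y Q hp).1; omega)
    rw [← (oQ p hp).2.1, h] at h1
    exact hvU h1
  have hidx : ∀ p ∈ Q, (Q.idxOf p : ℚ) + 1 ≤ (k : ℚ) := by
    intro p hp
    have h1 := (pos v x y Q hp).1
    rw [hkd]
    exact_mod_cast h1
  -- the bounds
  have hbd : ∀ p ∈ Q, a x < a' p ∧ a' p ≤ a y ∧ b x ≤ b' p ∧ b' p < b y := by
    intro p hp
    obtain ⟨-, -, -, h4, h5⟩ := oQ p hp
    have h6 := hidx p hp
    have h7 : (0 : ℚ) ≤ (Q.idxOf p : ℚ) := Nat.cast_nonneg _
    rw [h4, h5]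
    refine ⟨?_, ?_, ?_, ?_⟩
    · have h8 := lin_lt hab hkq (show (0 : ℚ) < (Q.idxOf p : ℚ) + 1 by linarith)
      rwa [lin_zero] at h8
    · have h8 := lin_le hab hkq h6
      rwa [lin_self _ _ hkq] at h8
    · have h8 := lin_le hbb hkq h7
      rwa [lin_zero] at h8
    · have h8 := lin_lt hbb hkq (show (Q.idxOf p : ℚ) < (k : ℚ) by linarith)
      rwa [lin_self _ _ hkq] at h8
  have hmono : ∀ p ∈ Q, ∀ q ∈ Q, Q.idxOf p < Q.idxOf q → a' p < a' q ∧ b' p < b' q := by
    intro p hp q hq hlt
    have h1 : (Q.idxOf p : ℚ) < (Q.idxOf q : ℚ) := by exact_mod_cast hlt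
    rw [(oQ p hp).2.2.2.1, (oQ p hp).2.2.2.2, (oQ q hq).2.2.2.1, (oQ q hq).2.2.2.2]
    exact ⟨lin_lt hab hkq (by linarith), lin_lt hbb hkq h1⟩
  -- neighbours of the vertices of the ear
  have hnb : ∀ p ∈ Q, ∀ z, H.Adj p z → z ∉ S →
      en v x y Q (Q.idxOf p) = z ∨ en v x y Q (Q.idxOf p + 2) = z := by
    intro p hp z hz hzS
    obtain ⟨h1, h2⟩ := pos v x y Q hp
    have h3 : Q[Q.idxOf p] = p := List.getElem_idxOf h1
    rcases hE.nb (Q.idxOf p) h1 z (by rw [h3]; exact hz) hzS with h4 | h4
    · exact Or.inl (en_of_some h4)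
    · exact Or.inr (en_of_some h4)
  refine ⟨l', r', t', a', b', ?_, oX, hbd, ?_, ?_, ?_⟩
  · refine ⟨hvU, ?_, ?_, ?_, ?_, ?_, ?_, ?_, ?_, ?_, ?_, ?_, ?_⟩
    · intro p hp
      rw [mem_union, List.mem_toFinset] at hp
      rcases hp with hp | hp
      · rw [(oX p hp).1]
        exact hF.adjl p hp
      · obtain ⟨h1, h2⟩ := pos v x y Q hp
        have h3 := (adj_en v hE (j := Q.idxOf p) (by omega)).symm
        rw [h2, ← (oQ p hp).1] at h3
        exact h3
    · intro p hp
      rw [mem_union, List.mem_toFinset] at hp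
      rcases hp with hp | hp
      · rw [(oX p hp).2.1]
        exact hF.adjr p hp
      · obtain ⟨h1, h2⟩ := pos v x y Q hp
        have h3 := adj_en v hE (j := Q.idxOf p + 1) (by omega)
        rw [h2, ← (oQ p hp).2.1] at h3
        exact h3
    · intro p hp
      rw [mem_union, List.mem_toFinset] at hp
      rcases hp with hp | hp
      · rw [(oX p hp).1, (oX p hp).2.1]
        exact hF.lr p hp
      · obtain ⟨h1, h2⟩ := pos v x y Q hp
        rw [(oQ p hp).1, (oQ p hp).2.1]
        intro h3
        have h4 := en_inj v hE hxy (by omega) (by omega) h3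
        omega
    · intro p hp
      rw [mem_union, List.mem_toFinset] at hp
      rcases hp with hp | hp
      · rw [(oX p hp).1, otX p hp]
        rcases hF.meml p hp with h | h
        · exact Or.inl h
        · right
          rw [otX _ h.1]
          exact ⟨mem_union_left _ h.1, h.2⟩
      · right
        obtain ⟨h1, h2⟩ := pos v x y Q hp
        rw [(oQ p hp).1, (oQ p hp).2.2.1]
        have h3 := hen (Q.idxOf p) (by omega)
        exact ⟨h3, htN _ h3⟩
    · intro p hp
      rw [mem_union, List.mem_toFinset] at hp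
      rcases hp with hp | hp
      · rw [(oX p hp).2.1, otX p hp]
        rcases hF.memr p hp with h | h
        · exact Or.inl h
        · right
          rw [otX _ h.1]
          exact ⟨mem_union_left _ h.1, h.2⟩
      · right
        obtain ⟨h1, h2⟩ := pos v x y Q hp
        rw [(oQ p hp).2.1, (oQ p hp).2.2.1]
        have h3 := hen (Q.idxOf p + 2) (by omega)
        exact ⟨h3, htN _ h3⟩
    · intro p hp q hq hpq hle
      rw [mem_union, List.mem_toFinset] at hp hq
      rcases hp with hp | hp <;> rcases hq with hq | hq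
      · obtain ⟨h1, h2, h3, h4⟩ := oX p hp
        obtain ⟨h1', h2', h3', h4'⟩ := oX q hq
        rw [otX p hp, otX q hq] at hle
        have h5 := hF.ty p hp q hq hpq hle
        unfold Ty at h5 ⊢
        rw [h1, h2, h3, h4, h1', h2', h3', h4', otX p hp, otX q hq]
        exact h5
      · -- an end edge
        right
        obtain ⟨h1, h2⟩ := pos v x y Q hq
        obtain ⟨g1, g2, g3, g4, g5⟩ := oQ q hq
        have hlt : t' p < t' q := by
          rw [otX p hp, g3]
          exact hN p hp
        refine ⟨hlt, ?_⟩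
        rcases hnb q hq p hpq.symm (hX p hp) with h3 | h3
        · left
          rcases mem_en v x y Q (j := Q.idxOf q) (by omega) with h4 | h4 | h4
          · have hpx : p = x := h3.symm.trans h4.2
            refine ⟨g1.trans h3, ?_, ?_⟩
            · rw [(oX p hp).2.2.1, hpx]
              exact (hbd q hq).1
            · rw [(oX p hp).2.2.2, hpx, g5, h4.1, Nat.cast_zero, lin_zero]
          · rw [h3] at h4
            exact absurd h4 (hXQ p hp)
          · omega
        · right
          rcases mem_en v x y Q (j := Q.idxOf q + 2) (by omega) with h4 | h4 | h4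
          · omega
          · rw [h3] at h4
            exact absurd h4 (hXQ p hp)
          · have hpy : p = y := h3.symm.trans h4.2
            refine ⟨g2.trans h3, ?_, ?_⟩
            · rw [(oX p hp).2.2.1, hpy, g4]
              have h5 : (Q.idxOf q : ℚ) + 1 = (k : ℚ) := by
                have h6 : Q.idxOf q + 1 = k := by omega
                exact_mod_cast h6
              rw [h5, lin_self _ _ hkq]
            · rw [(oX p hp).2.2.2, hpy]
              exact (hbd q hq).2.2.2
      · exfalso
        rw [(oQ p hp).2.2.1, otX q hq] at hle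
        exact absurd (hN q hq) (not_lt.2 hle)
      · left
        obtain ⟨h1, h2⟩ := pos v x y Q hp
        obtain ⟨h1q, h2q⟩ := pos v x y Q hq
        obtain ⟨g1, g2, g3, g4, g5⟩ := oQ p hp
        obtain ⟨g1', g2', g3', g4', g5'⟩ := oQ q hq
        refine ⟨g3.trans g3'.symm, ?_⟩
        rcases hnb p hp q hpq (hQ q hq).2.2 with h3 | h3
        · right
          have h4 := en_inj v hE hxy (by omega) (by omega) (h3.trans h2q.symm)
          obtain ⟨h5, h6⟩ := hmono q hq p hp (by omega)
          refine ⟨?_, g1.trans h3, h5, h6⟩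
          rw [g2']
          have h7 : Q.idxOf q + 2 = Q.idxOf p + 1 := by omega
          rw [h7, h2]
        · left
          have h4 := en_inj v hE hxy (by omega) (by omega) (h3.trans h2q.symm)
          obtain ⟨h5, h6⟩ := hmono p hp q hq (by omega)
          refine ⟨g2.trans h3, ?_, h5, h6⟩
          rw [g1']
          have h7 : Q.idxOf q = Q.idxOf p + 1 := by omega
          rw [h7, h2]
    · intro p hp h
      rw [mem_union, List.mem_toFinset] at hp
      rcases hp with hp | hp
      · rw [(oX p hp).1] at h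
        rw [otX p hp, (oX p hp).2.2.2]
        exact hF.lv p hp h
      · exact absurd h (hlQ p hp)
    · intro p hp h
      rw [mem_union, List.mem_toFinset] at hp
      rcases hp with hp | hp
      · rw [(oX p hp).2.1] at h
        rw [otX p hp, (oX p hp).2.2.1]
        exact hF.rv p hp h
      · exact absurd h (hrQ p hp)
    · intro p hp q hq h h'
      rw [mem_union, List.mem_toFinset] at hp hq
      rcases hp with hp | hp
      · rcases hq with hq | hq
        · rw [(oX p hp).1] at h
          rw [(oX q hq).1] at h'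
          exact hF.lv1 p hp q hq h h'
        · exact absurd h' (hlQ q hq)
      · exact absurd h (hlQ p hp)
    · intro p hp q hq h h'
      rw [mem_union, List.mem_toFinset] at hp hq
      rcases hp with hp | hp
      · rcases hq with hq | hq
        · rw [(oX p hp).2.1] at h
          rw [(oX q hq).2.1] at h'
          exact hF.rv1 p hp q hq h h'
        · exact absurd h' (hrQ q hq)
      · exact absurd h (hrQ p hp)
    · intro p hp
      rw [mem_union, List.mem_toFinset] at hp
      rcases hp with hp | hp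
      · rw [(oX p hp).2.2.1]
        exact hF.a1 p hp
      · exact (hbd p hp).2.1.trans (hF.a1 y hy)
    · intro p hp
      rw [mem_union, List.mem_toFinset] at hp
      rcases hp with hp | hp
      · rw [(oX p hp).2.2.2]
        exact hF.b0 p hp
      · exact (hF.b0 x hx).trans (hbd p hp).2.2.1
  · rw [List.pairwise_iff_getElem]
    intro i j hi hj hij
    have h1 : Q.idxOf Q[i] = i := List.Nodup.idxOf_getElem hE.nd i hi
    have h2 : Q.idxOf Q[j] = j := List.Nodup.idxOf_getElem hE.nd j hj
    exact hmono _ (List.getElem_mem hi) _ (List.getElem_mem hj) (by rw [h1, h2]; exact hij)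
  · intro p hp
    have hpQ : p ∈ Q := List.mem_of_getLast? hp
    have h1 : Q.idxOf p + 1 = k := by
      rw [List.getLast?_eq_getElem?] at hp
      obtain ⟨h2, h3⟩ := List.getElem?_eq_some_iff.mp hp
      rw [← h3, List.Nodup.idxOf_getElem hE.nd]
      omega
    have h5 : (Q.idxOf p : ℚ) + 1 = (k : ℚ) := by exact_mod_cast h1
    rw [(oQ p hpQ).2.2.2.1, h5, lin_self _ _ hkq]
  · intro p hp
    have hpQ : p ∈ Q := List.mem_of_mem_head? hp
    have h1 : Q.idxOf p = 0 := by
      rw [List.head?_eq_getElem?] at hp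
      obtain ⟨h2, h3⟩ := List.getElem?_eq_some_iff.mp hp
      rw [← h3, List.Nodup.idxOf_getElem hE.nd]
    rw [(oQ p hpQ).2.2.2.2, h1, Nat.cast_zero, lin_zero]

end TB.PL
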