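import Pool.Agent.Lib.MP_80160f_co.PL.Spec

/-!
# MP_80160f_co, part PL : the induction over the ears
-/

set_option autoImplicit false

namespace TB.PL

open Finset

universe u

theorem fData (h1 : S_Start.{u}) (h2 : S_Next.{u}) (h3 : S_End.{u}) : S_Data.{u} := by
  intro V _ _ H v hH hK
  have key : ∀ (n : ℕ) (c : V) (U : Finset V) (B : List V) (l r : V → V) (t : V → ℕ)
      (a b : V → ℚ), U.card = n → St H v c U B l r t a b →
      ∃ (l r : V → V) (t : V → ℕ) (a b : V → ℚ), Fin0 H v l r t a b := by
    intro n
    induction n using Nat.strong_induction_on with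
    | _ n ih =>
      intro c U B l r t a b hn hS
      by_cases hne : ∃ p ∈ U, p ≠ c
      · obtain ⟨U', B', l', r', t', a', b', hlt, hS'⟩ := h2 V H v c U B l r t a b hH hK hS hne
        exact ih _ (hn ▸ hlt) c U' B' l' r' t' a' b' rfl hS'
      · have hU : U = {c} := by
          refine eq_singleton_iff_unique_mem.2 ⟨hS.cU, fun p hp => ?_⟩
          by_contra h
          exact hne ⟨p, hp, h⟩
        subst hU
        exact h3 V H v c B l r t a b hH hS
  obtain ⟨c, U, B, l, r, t, a, b, hS⟩ := h1 V H v hH
  exact key _ c U B l r t a b rfl hS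

end TB.PL
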