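import Pool.Agent.Lib.MP_80160f_co.PL.Spec

/-!
# MP_80160f_co, part PL : degree three
-/

set_option autoImplicit false

namespace TB.PL

open Finset

universe u

theorem fDeg : S_Deg.{u} := by
  classical
  intro V _ _ H hH
  have hcard : ∀ p : V, (univ.filter fun y => H.Adj p y).card = 3 := by
    intro p
    rw [← hH.deg p, card_filter]
    refine sum_congr rfl fun y _ => ?_
    by_cases h : H.Adj p y
    · rw [if_pos h, ew_adj h]
    · rw [if_neg h, ew_not h]
  have hmem : ∀ p q : V, q ∈ (univ.filter fun y => H.Adj p y) ↔ H.Adj p q := fun p q => by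
    rw [mem_filter]
    exact ⟨fun h => h.2, fun h => ⟨mem_univ _, h⟩⟩
  refine ⟨?_, ?_, ?_⟩
  · intro p m n q q' hm hn hmn hq hqm hqn hq' hqm' hqn'
    by_contra hne
    have h1 : ({m, n, q, q'} : Finset V) ⊆ univ.filter fun y => H.Adj p y := by
      intro z hz
      rw [hmem]
      simp only [mem_insert, mem_singleton] at hz
      rcases hz with rfl | rfl | rfl | rfl
      · exact hm
      · exact hn
      · exact hq
      · exact hq'
    have h2 := card_le_card h1
    rw [hcard, card_insert_of_notMem, card_insert_of_notMem, card_pair hne] at h2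
    · omega
    · simp only [mem_insert, mem_singleton, not_or]
      exact ⟨fun h => hqn h.symm, fun h => hqn' h.symm⟩
    · simp only [mem_insert, mem_singleton, not_or]
      exact ⟨hmn, fun h => hqm h.symm, fun h => hqm' h.symm⟩
  · intro p m n
    by_contra hcon
    have h1 : (univ.filter fun y => H.Adj p y) ⊆ {m, n} := by
      intro z hz
      rw [hmem] at hz
      simp only [mem_insert, mem_singleton]
      by_contra h2
      rw [not_or] at h2
      exact hcon ⟨z, hz, h2.1, h2.2⟩
    have h2 := card_le_card h1
    rw [hcard] at h2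
    have h3 := card_le_two (a := m) (b := n)
    omega
  · intro p S h
    obtain ⟨p', hp', w, hw, hpw⟩ := ec_pos h.ge
    rw [mem_singleton] at hp'
    exact ⟨w, hw, hp' ▸ hpw⟩

end TB.PL
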