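import Pool.Agent.Lib.MP_80160f_co.PL.Spec

/-!
# MP_80160f_co, part PL: the first frame
-/

set_option autoImplicit false

namespace TB.PL

open Finset

universe u

namespace fInitAux

variable {V : Type u} [DecidableEq V]

/-- the entries of the prolonged ear -/
def en (v : V) (Q : List V) (j : ℕ) : V := (v :: (Q ++ [v])).getD j v

theorem en_zero (v : V) (Q : List V) : en v Q 0 = v := rfl

theorem en_succ (v : V) (Q : List V) {j : ℕ} (hj : j < Q.length) : en v Q (j + 1) = Q[j] := by
  unfold en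
  rw [List.getD_cons_succ, List.getD_append _ _ _ _ hj, List.getD_eq_getElem _ _ hj]

theorem en_last (v : V) (Q : List V) : en v Q (Q.length + 1) = v := by
  unfold en
  rw [List.getD_cons_succ, List.getD_append_right _ _ _ _ le_rfl]
  simp

theorem en_of_some {v q : V} {Q : List V} {j : ℕ} (h : (v :: (Q ++ [v]))[j]? = some q) :
    en v Q j = q := by
  unfold en
  rw [List.getD_eq_getElem?_getD, h]
  rfl

variable {H : SimpleGraph V} {v : V} {S : Finset V} {Q : List V}

theorem adj_en (h : EarL H S Q v v) {j : ℕ} (hj : j < Q.length + 1) :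
    H.Adj (en v Q j) (en v Q (j + 1)) := by
  have h1 := List.isChain_iff_getElem.mp h.ch j (by simp; omega)
  have e1 : en v Q j = (v :: (Q ++ [v]))[j]'(by simp; omega) := by
    unfold en
    rw [List.getD_eq_getElem]
  have e2 : en v Q (j + 1) = (v :: (Q ++ [v]))[j + 1]'(by simp; omega) := by
    unfold en
    rw [List.getD_eq_getElem]
  rw [e1, e2]
  exact h1

theorem en_ne (h : EarL H S Q v v) {j : ℕ} (hj : j < Q.length) : en v Q (j + 1) ≠ v := by
  rw [en_succ v Q hj]
  intro h1
  exact h.xQ (h1 ▸ List.getElem_mem hj)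

theorem en_inj (h : EarL H S Q v v) {i j : ℕ} (hi : i < Q.length) (hj : j < Q.length)
    (he : en v Q (i + 1) = en v Q (j + 1)) : i = j := by
  rw [en_succ v Q hi, en_succ v Q hj] at he
  exact (List.Nodup.getElem_inj_iff h.nd).mp he

/-- the position of a vertex of the ear -/
theorem pos (Q : List V) {p : V} (hp : p ∈ Q) :
    Q.idxOf p < Q.length ∧ en v Q (Q.idxOf p + 1) = p := by
  have h1 := List.idxOf_lt_length_iff.mpr hp
  refine ⟨h1, ?_⟩
  rw [en_succ v Q h1, List.getElem_idxOf]

theorem pos_eq (h : EarL H S Q v v) {q : V} {j : ℕ} (hj : j < Q.length)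
    (he : en v Q (j + 1) = q) : q ∈ Q ∧ Q.idxOf q = j := by
  have h1 : q ∈ Q := by
    rw [← he, en_succ v Q hj]
    exact List.getElem_mem hj
  refine ⟨h1, ?_⟩
  obtain ⟨h2, h3⟩ := pos (v := v) Q h1
  exact en_inj h h2 hj (h3.trans he.symm)

theorem two_le (h : EarL H S Q v v) : 2 ≤ Q.length := by
  have h1 : Q.length ≠ 0 := fun h0 => h.ne (List.length_eq_zero_iff.mp h0)
  have h2 : Q.length ≠ 1 := fun h0 => h.one h0 rfl
  omega

end fInitAux

open fInitAux

theorem fInit : S_Init.{u} := by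
  intro V _ H v S Q h hS
  have hk := two_le h
  set k := Q.length with hkdef
  have hk1 : (0 : ℚ) < (k : ℚ) - 1 := by
    have : (2 : ℚ) ≤ k := by exact_mod_cast hk
    linarith
  set a : V → ℚ := fun p => (Q.idxOf p : ℚ) / ((k : ℚ) - 1) with ha
  have hlt : ∀ p q : V, Q.idxOf p < Q.idxOf q → a p < a q := by
    intro p q hpq
    have h1 : (Q.idxOf p : ℚ) < (Q.idxOf q : ℚ) := by exact_mod_cast hpq
    exact div_lt_div_of_pos_right h1 hk1
  -- neighbours in the ear
  have hnb : ∀ p ∈ Q, ∀ z, H.Adj p z → z ∉ S →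
      en v Q (Q.idxOf p) = z ∨ en v Q (Q.idxOf p + 2) = z := by
    intro p hp z hz hzS
    obtain ⟨h1, h2⟩ := pos (v := v) Q hp
    have h3 : Q[Q.idxOf p] = p := List.getElem_idxOf h1
    rcases h.nb (Q.idxOf p) h1 z (by rw [h3]; exact hz) hzS with h4 | h4
    · exact Or.inl (en_of_some h4)
    · exact Or.inr (en_of_some h4)
  have hl0 : ∀ p ∈ Q, en v Q (Q.idxOf p) = v → Q.idxOf p = 0 := by
    intro p hp h0
    obtain ⟨h1, -⟩ := pos (v := v) Q hp
    by_contra h2
    obtain ⟨j, hj⟩ := Nat.exists_eq_succ_of_ne_zero h2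
    rw [hj] at h0
    exact en_ne h (by omega) h0
  have hr0 : ∀ p ∈ Q, en v Q (Q.idxOf p + 2) = v → Q.idxOf p + 1 = k := by
    intro p hp h0
    obtain ⟨h1, -⟩ := pos (v := v) Q hp
    by_contra h2
    exact en_ne h (j := Q.idxOf p + 1) (by omega) h0
  have hlm : ∀ p ∈ Q, en v Q (Q.idxOf p) = v ∨ en v Q (Q.idxOf p) ∈ Q := by
    intro p hp
    obtain ⟨h1, -⟩ := pos (v := v) Q hp
    rcases Nat.eq_zero_or_pos (Q.idxOf p) with h2 | h2
    · left
      rw [h2]
      rfl
    · right
      obtain ⟨j, hj⟩ := Nat.exists_eq_succ_of_ne_zero h2.ne'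
      rw [hj]
      exact (pos_eq h (j := j) (by omega) rfl).1
  have hrm : ∀ p ∈ Q, en v Q (Q.idxOf p + 2) = v ∨ en v Q (Q.idxOf p + 2) ∈ Q := by
    intro p hp
    obtain ⟨h1, -⟩ := pos (v := v) Q hp
    by_cases h2 : Q.idxOf p + 1 = k
    · left
      have h3 : Q.idxOf p + 2 = Q.length + 1 := by omega
      rw [h3]
      exact en_last v Q
    · right
      exact (pos_eq h (j := Q.idxOf p + 1) (by omega) rfl).1
  refine ⟨fun p => en v Q (Q.idxOf p), fun p => en v Q (Q.idxOf p + 2), fun _ => 0, a, a, ?_, ?_, ?_,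
    ?_, ?_⟩
  · refine ⟨?_, ?_, ?_, ?_, ?_, ?_, ?_, ?_, ?_, ?_, ?_, ?_, ?_⟩
    · intro hv
      exact h.xQ (List.mem_toFinset.mp hv)
    · intro p hp
      obtain ⟨h1, h2⟩ := pos (v := v) Q (List.mem_toFinset.mp hp)
      have h3 := (adj_en h (j := Q.idxOf p) (by omega)).symm
      rw [h2] at h3
      exact h3
    · intro p hp
      obtain ⟨h1, h2⟩ := pos (v := v) Q (List.mem_toFinset.mp hp)
      have h3 := adj_en h (j := Q.idxOf p + 1) (by omega)
      rw [h2] at h3
      exact h3
    · intro p hp h4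
      obtain ⟨h1, h2⟩ := pos (v := v) Q (List.mem_toFinset.mp hp)
      have h4' : en v Q (Q.idxOf p) = en v Q (Q.idxOf p + 2) := h4
      rcases Nat.eq_zero_or_pos (Q.idxOf p) with h5 | h5
      · rw [h5] at h4'
        exact en_ne h (j := 1) (by omega) h4'.symm
      · obtain ⟨j, hj⟩ := Nat.exists_eq_succ_of_ne_zero h5.ne'
        by_cases h6 : Q.idxOf p + 1 = k
        · have h7 : Q.idxOf p + 2 = Q.length + 1 := by omega
          rw [h7, en_last, hj] at h4'
          exact en_ne h (j := j) (by omega) h4'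
        · rw [hj] at h4'
          have h8 := en_inj h (i := j) (j := j + 2) (by omega) (by omega) h4'
          omega
    · intro p hp
      rcases hlm p (List.mem_toFinset.mp hp) with h1 | h1
      · exact Or.inl h1
      · exact Or.inr ⟨List.mem_toFinset.mpr h1, le_rfl⟩
    · intro p hp
      rcases hrm p (List.mem_toFinset.mp hp) with h1 | h1
      · exact Or.inl h1
      · exact Or.inr ⟨List.mem_toFinset.mpr h1, le_rfl⟩
    · intro p hp q hq hpq _
      have hp' := List.mem_toFinset.mp hp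
      have hq' := List.mem_toFinset.mp hq
      obtain ⟨h1, h2⟩ := pos (v := v) Q hp'
      obtain ⟨h1q, h2q⟩ := pos (v := v) Q hq'
      left
      refine ⟨rfl, ?_⟩
      rcases hnb p hp' q hpq (hS q hq') with h3 | h3
      · right
        have h4 : Q.idxOf p ≠ 0 := by
          intro h5
          rw [h5, en_zero] at h3
          exact h.xQ (h3 ▸ hq')
        obtain ⟨j, hj⟩ := Nat.exists_eq_succ_of_ne_zero h4
        have h5 : Q.idxOf q = j := by
          rw [hj] at h3
          exact (pos_eq h (j := j) (by omega) h3).2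
        have h6 : a q < a p := hlt q p (by omega)
        refine ⟨?_, h3, h6, h6⟩
        show en v Q (Q.idxOf q + 2) = p
        rw [h5, ← h2, hj]
      · left
        have h4 : Q.idxOf p + 1 ≠ k := by
          intro h5
          have h7 : Q.idxOf p + 2 = Q.length + 1 := by omega
          rw [h7, en_last] at h3
          exact h.xQ (h3 ▸ hq')
        have h5 : Q.idxOf q = Q.idxOf p + 1 :=
          (pos_eq h (j := Q.idxOf p + 1) (by omega) h3).2
        have h6 : a p < a q := hlt p q (by omega)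
        refine ⟨h3, ?_, h6, h6⟩
        show en v Q (Q.idxOf q) = p
        rw [h5, h2]
    · intro p hp h0
      have h1 := hl0 p (List.mem_toFinset.mp hp) h0
      refine ⟨rfl, ?_⟩
      show (Q.idxOf p : ℚ) / ((k : ℚ) - 1) = 0
      rw [h1]
      simp
    · intro p hp h0
      have h1 := hr0 p (List.mem_toFinset.mp hp) h0
      refine ⟨rfl, ?_⟩
      show (Q.idxOf p : ℚ) / ((k : ℚ) - 1) = 1
      have h2 : (Q.idxOf p : ℚ) = (k : ℚ) - 1 := by
        rw [← h1]
        push_cast
        ring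
      rw [h2, div_self hk1.ne']
    · intro p hp q hq h0 h0'
      have hp' := List.mem_toFinset.mp hp
      have hq' := List.mem_toFinset.mp hq
      have h1 := hl0 p hp' h0
      have h2 := hl0 q hq' h0'
      rw [← (pos (v := v) Q hp').2, ← (pos (v := v) Q hq').2, h1, h2]
    · intro p hp q hq h0 h0'
      have hp' := List.mem_toFinset.mp hp
      have hq' := List.mem_toFinset.mp hq
      have h1 := hr0 p hp' h0
      have h2 := hr0 q hq' h0'
      have h3 : Q.idxOf p = Q.idxOf q := by omega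
      rw [← (pos (v := v) Q hp').2, ← (pos (v := v) Q hq').2, h3]
    · intro p hp
      obtain ⟨h1, -⟩ := pos (v := v) Q (List.mem_toFinset.mp hp)
      show (Q.idxOf p : ℚ) / ((k : ℚ) - 1) ≤ 1
      rw [div_le_one hk1]
      have h2 : (Q.idxOf p : ℚ) + 1 ≤ (k : ℚ) := by exact_mod_cast h1
      linarith
    · intro p _
      exact div_nonneg (Nat.cast_nonneg _) hk1.le
  · rw [List.pairwise_iff_getElem]
    intro i j hi hj hij
    have h1 : Q.idxOf Q[i] = i := List.Nodup.idxOf_getElem h.nd i hi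
    have h2 : Q.idxOf Q[j] = j := List.Nodup.idxOf_getElem h.nd j hj
    have h3 : a Q[i] < a Q[j] := hlt _ _ (by rw [h1, h2]; exact hij)
    exact ⟨h3, h3⟩
  · intro p hp
    have h1 : Q.idxOf p = k - 1 := by
      rw [List.getLast?_eq_getElem?] at hp
      obtain ⟨h2, h3⟩ := List.getElem?_eq_some_iff.mp hp
      rw [← h3, List.Nodup.idxOf_getElem h.nd]
    show (Q.idxOf p : ℚ) / ((k : ℚ) - 1) = 1
    rw [h1, Nat.cast_sub (by omega), Nat.cast_one, div_self hk1.ne']
  · intro p hp
    have h1 : Q.idxOf p = 0 := by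
      rw [List.head?_eq_getElem?] at hp
      obtain ⟨h2, h3⟩ := List.getElem?_eq_some_iff.mp hp
      rw [← h3, List.Nodup.idxOf_getElem h.nd]
    show (Q.idxOf p : ℚ) / ((k : ℚ) - 1) = 0
    rw [h1]
    simp
  · intro p hp hv hpv
    exact hnb p hp v hpv hv

end TB.PL
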