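import Pool.Agent.Lib.MP_80160f_co.PL.Spec

/-!
# MP_80160f_co, part PL : the partition
-/

set_option autoImplicit false

namespace TB.PL

open Finset

universe u

theorem fMain (h1 : S_Data.{u}) (h2 : S_Right.{u}) (h3 : S_Left.{u}) (h4 : S_Mid.{u})
    (h5 : S_Base.{u}) : S_Main.{u} := by
  intro V _ _ H v hH hK
  obtain ⟨l, r, t, a, b, hF⟩ := h1 V H v hH hK
  have hm : ∀ q : ({v}ᶜ : Set V), (q : V) ∈ univ.erase v := fun q => mem_erase.2 ⟨q.2, mem_univ _⟩
  have hne : ∃ p, p ≠ v := by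
    obtain ⟨w, -, hw⟩ := exists_ne_zero_of_sum_ne_zero (s := univ) (f := fun y => ew H v y)
      (by rw [hH.deg v]; omega)
    refine ⟨w, fun h => hw ?_⟩
    rw [h]
    exact ew_not (H.loopless.irrefl v)
  have b1 := h5 V H v (fun p q => t p = t q) hne fun R hC => h4 V H v l r t a b R hH hF hC
  have b2 := h5 V H v (fun p q => t p < t q ∧ l q = p) hne fun R hC =>
    h3 V H v l r t a b R hH hF hC
  have b3 := h5 V H v (fun p q => t p < t q ∧ r q = p) hne fun R hC =>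
    h2 V H v l r t a b R hH hF hC
  refine ⟨_, _, _, ?_, ?_, ?_, ?_, b1, b2, b3⟩
  · rw [Set.disjoint_left]
    rintro e ⟨p, q, he, -, hE⟩ ⟨p', q', he', -, hE', -⟩
    rw [he, Sym2.eq_iff] at he'
    rcases he' with ⟨rfl, rfl⟩ | ⟨rfl, rfl⟩
    · exact absurd hE hE'.ne
    · exact absurd hE hE'.ne'
  · rw [Set.disjoint_left]
    rintro e ⟨p, q, he, -, hE⟩ ⟨p', q', he', -, hE', -⟩
    rw [he, Sym2.eq_iff] at he'
    rcases he' with ⟨rfl, rfl⟩ | ⟨rfl, rfl⟩
    · exact absurd hE hE'.ne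
    · exact absurd hE hE'.ne'
  · rw [Set.disjoint_left]
    rintro e ⟨p, q, he, -, hE, hl⟩ ⟨p', q', he', -, hE', hr⟩
    rw [he, Sym2.eq_iff] at he'
    rcases he' with ⟨rfl, rfl⟩ | ⟨rfl, rfl⟩
    · exact hF.fr.lr q (hm q) (hl.trans hr.symm)
    · exact absurd hE' hE.not_gt
  · ext e
    constructor
    · rintro ((⟨p, q, he, hpq, -⟩ | ⟨p, q, he, hpq, -⟩) | ⟨p, q, he, hpq, -⟩) <;>
      · rw [he, SimpleGraph.mem_edgeSet]
        exact hpq
    · intro he
      have key : ∀ p q : ({v}ᶜ : Set V), H.Adj (p : V) q → t p ≤ t q →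
          t p = t q ∨ (t p < t q ∧ l q = p) ∨ (t p < t q ∧ r q = p) := by
        intro p q hpq hle
        rcases hF.fr.ty p (hm p) q (hm q) hpq hle with ⟨h0, -⟩ | ⟨h0, h | h⟩
        · exact Or.inl h0
        · exact Or.inr (Or.inl ⟨h0, h.1⟩)
        · exact Or.inr (Or.inr ⟨h0, h.1⟩)
      induction e with
      | h p q =>
        rw [SimpleGraph.mem_edgeSet] at he
        have hpq : H.Adj (p : V) q := he
        rcases le_total (t p) (t q) with hle | hle
        · rcases key p q hpq hle with h | h | h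
          · exact Or.inl (Or.inl ⟨p, q, rfl, hpq, h⟩)
          · exact Or.inl (Or.inr ⟨p, q, rfl, hpq, h⟩)
          · exact Or.inr ⟨p, q, rfl, hpq, h⟩
        · rcases key q p hpq.symm hle with h | h | h
          · exact Or.inl (Or.inl ⟨q, p, Sym2.eq_swap, hpq.symm, h⟩)
          · exact Or.inl (Or.inr ⟨q, p, Sym2.eq_swap, hpq.symm, h⟩)
          · exact Or.inr ⟨q, p, Sym2.eq_swap, hpq.symm, h⟩

end TB.PL
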