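import Pool.Agent.Lib.MP_80160f_co.PL.Spec

/-!
# MP_80160f_co, part PL : the edges inside of the ears
-/

set_option autoImplicit false

namespace TB.PL

open Finset

universe u

namespace fMidAux

variable {V : Type u} [DecidableEq V] [Fintype V] {H : SimpleGraph V} {v : V} {l r : V → V}
  {t : V → ℕ} {a b : V → ℚ} {R : V → V → Prop}

theorem card_lt_of_lt (f : V → ℚ) {p w : V} (h : f p < f w) :
    (univ.filter fun q => f w < f q).card < (univ.filter fun q => f p < f q).card := by
  apply card_lt_card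
  refine ⟨?_, ?_⟩
  · intro q hq
    rw [mem_filter] at hq ⊢
    exact ⟨hq.1, h.trans hq.2⟩
  · intro hsub
    have h1 := hsub (mem_filter.2 ⟨mem_univ w, h⟩)
    exact lt_irrefl _ (mem_filter.1 h1).2

theorem right (hF : Fr H v (univ.erase v) l r t a b) (hC : Cl H v (fun p q => t p = t q) R) :
    ∀ (n : ℕ) (p : V), p ≠ v → (univ.filter fun q => a p < a q).card = n →
      ∃ p1, p1 ≠ v ∧ R p p1 ∧ t p1 = t p ∧ (r p1 = v ∨ (r p1 ≠ v ∧ t (r p1) < t p)) := by
  intro n
  induction n using Nat.strong_induction_on with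
  | _ n ih =>
    intro p hp hn
    have hm : ∀ q : V, q ≠ v → q ∈ univ.erase v := fun q hq => mem_erase.2 ⟨hq, mem_univ q⟩
    by_cases hrv : r p = v
    · exact ⟨p, hp, hC.refl p hp, rfl, Or.inl hrv⟩
    obtain ⟨-, htw⟩ : r p ∈ univ.erase v ∧ t (r p) ≤ t p := by
      rcases hF.memr p (hm p hp) with h | h
      · exact absurd h hrv
      · exact h
    have hadj := hF.adjr p (hm p hp)
    rcases htw.lt_or_eq with htw | htw
    · exact ⟨p, hp, hC.refl p hp, rfl, Or.inr ⟨hrv, htw⟩⟩
    rcases hF.ty p (hm p hp) (r p) (hm _ hrv) hadj htw.ge with ⟨h0, h | h⟩ | ⟨h0, -⟩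
    · have h1 := card_lt_of_lt a h.2.2.1
      rw [hn] at h1
      obtain ⟨p1, h2, h3, h4, h5⟩ := ih _ h1 (r p) hrv rfl
      have h6 : R p (r p) := hC.edge _ _ hp hrv hadj htw.symm
      refine ⟨p1, h2, hC.trans _ _ _ h6 h3, h4.trans htw, ?_⟩
      rw [htw] at h5
      exact h5
    · exact absurd h.2.1 (hF.lr p (hm p hp))
    · exact absurd htw.symm h0.ne

theorem left (hF : Fr H v (univ.erase v) l r t a b) (hC : Cl H v (fun p q => t p = t q) R) :
    ∀ (n : ℕ) (p : V), p ≠ v → (univ.filter fun q => (- a p) < (- a q)).card = n →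
      ∃ p1, p1 ≠ v ∧ R p p1 ∧ t p1 = t p ∧ (l p1 = v ∨ (l p1 ≠ v ∧ t (l p1) < t p)) := by
  intro n
  induction n using Nat.strong_induction_on with
  | _ n ih =>
    intro p hp hn
    have hm : ∀ q : V, q ≠ v → q ∈ univ.erase v := fun q hq => mem_erase.2 ⟨hq, mem_univ q⟩
    by_cases hlv : l p = v
    · exact ⟨p, hp, hC.refl p hp, rfl, Or.inl hlv⟩
    obtain ⟨-, htw⟩ : l p ∈ univ.erase v ∧ t (l p) ≤ t p := by
      rcases hF.meml p (hm p hp) with h | h
      · exact absurd h hlv
      · exact h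
    have hadj := hF.adjl p (hm p hp)
    rcases htw.lt_or_eq with htw | htw
    · exact ⟨p, hp, hC.refl p hp, rfl, Or.inr ⟨hlv, htw⟩⟩
    rcases hF.ty p (hm p hp) (l p) (hm _ hlv) hadj htw.ge with ⟨h0, h | h⟩ | ⟨h0, -⟩
    · exact absurd h.1.symm (hF.lr p (hm p hp))
    · have h1 := card_lt_of_lt (fun q => - a q) (neg_lt_neg h.2.2.1)
      rw [hn] at h1
      obtain ⟨p1, h2, h3, h4, h5⟩ := ih _ h1 (l p) hlv rfl
      have h6 : R p (l p) := hC.edge _ _ hp hlv hadj htw.symm
      refine ⟨p1, h2, hC.trans _ _ _ h6 h3, h4.trans htw, ?_⟩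
      rw [htw] at h5
      exact h5
    · exact absurd htw.symm h0.ne

end fMidAux

open fMidAux

theorem fMid : S_Mid.{u} := by
  intro V _ _ H v l r t a b R hH hF hC
  have hm : ∀ q : V, q ≠ v → q ∈ univ.erase v := fun q hq => mem_erase.2 ⟨hq, mem_univ q⟩
  have key : ∀ (n : ℕ) (p q : V), p ≠ v → q ≠ v → t p ≤ n → t q ≤ n → R p q := by
    intro n
    induction n using Nat.strong_induction_on with
    | _ n ih =>
      -- every vertex at time `n`
      have h1 : ∀ p : V, p ≠ v → t p = n → 0 < n → ∃ w, w ≠ v ∧ t w < n ∧ R p w := by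
        intro p hp htp hn
        obtain ⟨p1, g1, g2, g3, g4⟩ := right hF.fr hC _ p hp rfl
        obtain ⟨p2, k1, k2, k3, k4⟩ := left hF.fr hC _ p hp rfl
        have g5 : r p1 ≠ v := by
          intro h
          have := (hF.fr.rv p1 (hm _ g1) h).1
          omega
        have k5 : l p2 ≠ v := by
          intro h
          have := (hF.fr.lv p2 (hm _ k1) h).1
          omega
        have g6 : t (r p1) < n := by
          rcases g4 with h | h
          · exact absurd h g5
          · rw [← htp]; exact h.2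
        have k6 : t (l p2) < n := by
          rcases k4 with h | h
          · exact absurd h k5
          · rw [← htp]; exact h.2
        have h2 : R (r p1) (l p2) := ih (max (t (r p1)) (t (l p2))) (max_lt g6 k6) _ _ g5 k5
          (le_max_left _ _) (le_max_right _ _)
        have h3 : R p1 p2 := hC.trans _ _ _ (hC.symm _ _ g2) k2
        have h4 : R p1 (r p1) := hC.merge p1 (r p1) p2 (l p2) g1 g5 k1 k5 h3 h2 (by
          rintro ⟨h5, h6⟩
          exact hF.fr.lr p2 (hm _ k1) (by rw [← h6, h5])) (hF.fr.adjr p1 (hm _ g1))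
          (hF.fr.adjl p2 (hm _ k1))
        exact ⟨r p1, g5, g6, hC.trans _ _ _ g2 h4⟩
      intro p q hp hq htp htq
      rcases Nat.eq_zero_or_pos n with hn | hn
      · have h2 : ∀ p : V, p ≠ v → t p = 0 → ∃ z, z ≠ v ∧ R p z ∧ r z = v := by
          intro p hp htp
          obtain ⟨p1, g1, g2, g3, g4 | g4⟩ := right hF.fr hC _ p hp rfl
          · exact ⟨p1, g1, g2, g4⟩
          · have := g4.2
            omega
        obtain ⟨z, hz1, hz2, hz3⟩ := h2 p hp (by omega)
        obtain ⟨z', hz1', hz2', hz3'⟩ := h2 q hq (by omega)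
        have h4 := hF.fr.rv1 z (hm z hz1) z' (hm z' hz1') hz3 hz3'
        rw [← h4] at hz2'
        exact hC.trans _ _ _ hz2 (hC.symm _ _ hz2')
      · have h2 : ∀ p : V, p ≠ v → t p ≤ n → ∃ w, w ≠ v ∧ t w < n ∧ R p w := by
          intro p hp htp
          rcases htp.lt_or_eq with h | h
          · exact ⟨p, hp, h, hC.refl p hp⟩
          · exact h1 p hp h hn
        obtain ⟨w, hw1, hw2, hw3⟩ := h2 p hp htp
        obtain ⟨w', hw1', hw2', hw3'⟩ := h2 q hq htq
        have h3 : R w w' := ih (max (t w) (t w')) (max_lt hw2 hw2') _ _ hw1 hw1'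
          (le_max_left _ _) (le_max_right _ _)
        exact hC.trans _ _ _ hw3 (hC.trans _ _ _ h3 (hC.symm _ _ hw3'))
  intro p q hp hq
  exact key (max (t p) (t q)) p q hp hq (le_max_left _ _) (le_max_right _ _)

end TB.PL
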