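import Pool.Agent.Lib.MP_80160f_co.PL.Spec

/-!
# MP_80160f_co, PL: the branch sets of a K33 model (helper18)
-/

set_option autoImplicit false

namespace TB.PL

open Finset

universe u

namespace fModelAux

variable {V : Type u} [DecidableEq V]

theorem chain_conn (H : SimpleGraph V) : ∀ (l : List V), l.IsChain H.Adj → ConnIn H l.toFinset
  | [], _ => by
    intro x hx
    simp at hx
  | [a], _ => by
    have h := connIn_single H a
    simpa using h
  | a :: b :: l, h => by
    have h1 := chain_conn H (b :: l) (List.isChain_cons_cons.1 h).2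
    rw [List.toFinset_cons]
    exact h1.insert (a := b) (by simp) (List.isChain_cons_cons.1 h).1.symm

theorem walk_reach {H : SimpleGraph V} {U : Finset V} : ∀ {x y : V} (_ : (inG H U).Walk x y)
    (hx : x ∈ U) (hy : y ∈ U),
    (H.induce (U : Set V)).Reachable ⟨x, mem_coe.2 hx⟩ ⟨y, mem_coe.2 hy⟩
  | _, _, .nil, _, _ => SimpleGraph.Reachable.refl _
  | _, _, .cons h p, _, hy =>
    (SimpleGraph.Adj.reachable (SimpleGraph.comap_adj.2 h.1)).trans (walk_reach p h.2.2 hy)

theorem conn_set {H : SimpleGraph V} {U : Finset V} (hU : ConnIn H U) {x : V} (hx : x ∈ U) :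
    (H.induce (U : Set V)).Connected := by
  rw [SimpleGraph.connected_iff]
  refine ⟨?_, ⟨⟨x, mem_coe.2 hx⟩⟩⟩
  intro a b
  obtain ⟨p⟩ := hU a.1 (mem_coe.1 a.2) b.1 (mem_coe.1 b.2)
  exact walk_reach p (mem_coe.1 a.2) (mem_coe.1 b.2)

theorem get_last (H : SimpleGraph V) : ∀ (x : V) (M : List V) (y : V) (L : List V), M ≠ [] →
    (x :: (M ++ y :: L)).IsChain H.Adj → (∃ p ∈ M, H.Adj x p) ∧ ∃ p ∈ M, H.Adj y p
  | _, [], _, _, h, _ => absurd rfl h
  | x, [a], y, L, _, h => by
    have h' : (x :: a :: y :: L).IsChain H.Adj := h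
    have h1 := List.isChain_cons_cons.1 h'
    have h2 := List.isChain_cons_cons.1 h1.2
    exact ⟨⟨a, by simp, h1.1⟩, ⟨a, by simp, h2.1.symm⟩⟩
  | x, a :: b :: M, y, L, _, h => by
    have h' : (x :: a :: (b :: M ++ y :: L)).IsChain H.Adj := h
    have h1 := List.isChain_cons_cons.1 h'
    obtain ⟨-, p, hp, hp2⟩ := get_last H a (b :: M) y L (by simp) h1.2
    exact ⟨⟨a, by simp, h1.1⟩, ⟨p, List.mem_cons_of_mem _ hp, hp2⟩⟩

end fModelAux

open fModelAux

theorem fModel : S_Model.{u} := by
  intro V _ H v x y z D Qs L1 M L3 hnd hch hall hDQ hvD hvQ hhead hlast hD hQs hz hDz hQx hQy hDv hqD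
  -- the parts
  have hchx : (x :: (M ++ y :: L3)).IsChain H.Adj := hch.right_of_append
  have hch1 : (L1 ++ [x]).IsChain H.Adj := by
    have h : ((L1 ++ [x]) ++ (M ++ y :: L3)).IsChain H.Adj := by simpa using hch
    exact h.left_of_append
  have hchM' : (M ++ y :: L3).IsChain H.Adj := by
    have h : ([x] ++ (M ++ y :: L3)).IsChain H.Adj := hchx
    exact h.right_of_append
  have hchM : M.IsChain H.Adj := hchM'.left_of_append
  have hch3 : (y :: L3).IsChain H.Adj := hchM'.right_of_append
  have hMne : M ≠ [] := List.ne_nil_of_mem hz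
  obtain ⟨⟨p1, hp1, hxp1⟩, p2, hp2, hyp2⟩ := get_last H x M y L3 hMne hchx
  have hnd' : ((L1 ++ [x]) ++ (M ++ y :: L3)).Nodup := by simpa using hnd
  have hd1 : ∀ p ∈ L1 ++ [x], p ∉ M ∧ p ∉ y :: L3 := by
    intro p hp
    have h := (List.nodup_append.1 hnd').2.2 p hp
    exact ⟨fun h1 => h p (List.mem_append_left _ h1) rfl,
      fun h1 => h p (List.mem_append_right _ h1) rfl⟩
  have hd2 : ∀ p ∈ M, p ∉ y :: L3 := by
    intro p hp h1
    exact (List.nodup_append.1 (List.nodup_append.1 hnd').2.1).2.2 p hp p h1 rfl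
  have m1 : ∀ p ∈ L1 ++ [x], p ∈ L1 ++ x :: (M ++ y :: L3) := by
    intro p hp
    have : p ∈ (L1 ++ [x]) ++ (M ++ y :: L3) := List.mem_append_left _ hp
    simpa using this
  have m2 : ∀ p ∈ M, p ∈ L1 ++ x :: (M ++ y :: L3) := by
    intro p hp
    exact List.mem_append_right _ (List.mem_cons_of_mem _ (List.mem_append_left _ hp))
  have m3 : ∀ p ∈ y :: L3, p ∈ L1 ++ x :: (M ++ y :: L3) := by
    intro p hp
    exact List.mem_append_right _ (List.mem_cons_of_mem _ (List.mem_append_right _ hp))
  obtain ⟨ph, hph, hphv⟩ := hhead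
  have hph1 : ph ∈ L1 ++ [x] := by
    cases L1 with
    | nil =>
      simp only [List.nil_append, List.head?_cons, Option.some.injEq] at hph
      simp [hph]
    | cons a L =>
      simp only [List.cons_append, List.head?_cons, Option.some.injEq] at hph
      simp [hph]
  obtain ⟨pl, hpl, hplv⟩ := hlast
  have hpl1 : pl ∈ y :: L3 := by
    have h1 : L1 ++ x :: (M ++ y :: L3) = (L1 ++ x :: M) ++ (y :: L3) := by simp
    rw [h1, List.getLast?_append_of_ne_nil _ (by simp)] at hpl
    exact List.mem_of_getLast? hpl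
  obtain ⟨w1, hw1, hw1x⟩ := hQx
  obtain ⟨w2, hw2, hw2y⟩ := hQy
  obtain ⟨w3, hw3, hw3v⟩ := hDv
  obtain ⟨w4, hw4, hw4z⟩ := hDz
  obtain ⟨q, hq, w5, hw5, hw5q⟩ := hqD
  refine ⟨![((L1 ++ [x]).toFinset : Set V), ((y :: L3).toFinset : Set V), (D : Set V)],
    ![(({v} : Finset V) : Set V), (M.toFinset : Set V), (Qs : Set V)],
    ⟨?_, ?_, ?_, ?_, ?_, ?_⟩, by simp⟩
  · intro i
    fin_cases i
    · exact conn_set (chain_conn H _ hch1) (x := x) (by simp)
    · exact conn_set (chain_conn H _ hch3) (x := y) (by simp)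
    · exact conn_set hD hw3
  · intro i
    fin_cases i
    · exact conn_set (connIn_single H v) (x := v) (by simp)
    · exact conn_set (chain_conn H _ hchM) (x := z) (by simpa using hz)
    · exact conn_set hQs hw1
  · have h01 : Disjoint ((L1 ++ [x]).toFinset : Set V) ((y :: L3).toFinset : Set V) := by
      rw [disjoint_coe, disjoint_left]
      intro p hp hp'
      exact (hd1 p (List.mem_toFinset.1 hp)).2 (List.mem_toFinset.1 hp')
    have h02 : Disjoint ((L1 ++ [x]).toFinset : Set V) (D : Set V) := by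
      rw [disjoint_coe, disjoint_left]
      intro p hp hp'
      exact (hall p (m1 p (List.mem_toFinset.1 hp))).1 hp'
    have h12 : Disjoint ((y :: L3).toFinset : Set V) (D : Set V) := by
      rw [disjoint_coe, disjoint_left]
      intro p hp hp'
      exact (hall p (m3 p (List.mem_toFinset.1 hp))).1 hp'
    intro i j hij
    fin_cases i <;> fin_cases j
    · exact absurd rfl hij
    · exact h01
    · exact h02
    · exact h01.symm
    · exact absurd rfl hij
    · exact h12
    · exact h02.symm
    · exact h12.symm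
    · exact absurd rfl hij
  · have h01 : Disjoint (({v} : Finset V) : Set V) (M.toFinset : Set V) := by
      rw [disjoint_coe, disjoint_left]
      intro p hp hp'
      exact (hall p (m2 p (List.mem_toFinset.1 hp'))).2.2 (mem_singleton.1 hp)
    have h02 : Disjoint (({v} : Finset V) : Set V) (Qs : Set V) := by
      rw [disjoint_coe, disjoint_left]
      intro p hp hp'
      exact hvQ (mem_singleton.1 hp ▸ hp')
    have h12 : Disjoint (M.toFinset : Set V) (Qs : Set V) := by
      rw [disjoint_coe, disjoint_left]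
      intro p hp hp'
      exact (hall p (m2 p (List.mem_toFinset.1 hp))).2.1 hp'
    intro i j hij
    fin_cases i <;> fin_cases j
    · exact absurd rfl hij
    · exact h01
    · exact h02
    · exact h01.symm
    · exact absurd rfl hij
    · exact h12
    · exact h02.symm
    · exact h12.symm
    · exact absurd rfl hij
  · intro i j
    fin_cases i <;> fin_cases j
    · show Disjoint ((L1 ++ [x]).toFinset : Set V) (({v} : Finset V) : Set V)
      rw [disjoint_coe, disjoint_left]
      intro p hp hp'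
      exact (hall p (m1 p (List.mem_toFinset.1 hp))).2.2 (mem_singleton.1 hp')
    · show Disjoint ((L1 ++ [x]).toFinset : Set V) (M.toFinset : Set V)
      rw [disjoint_coe, disjoint_left]
      intro p hp hp'
      exact (hd1 p (List.mem_toFinset.1 hp)).1 (List.mem_toFinset.1 hp')
    · show Disjoint ((L1 ++ [x]).toFinset : Set V) (Qs : Set V)
      rw [disjoint_coe, disjoint_left]
      intro p hp hp'
      exact (hall p (m1 p (List.mem_toFinset.1 hp))).2.1 hp'
    · show Disjoint ((y :: L3).toFinset : Set V) (({v} : Finset V) : Set V)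
      rw [disjoint_coe, disjoint_left]
      intro p hp hp'
      exact (hall p (m3 p (List.mem_toFinset.1 hp))).2.2 (mem_singleton.1 hp')
    · show Disjoint ((y :: L3).toFinset : Set V) (M.toFinset : Set V)
      rw [disjoint_coe, disjoint_left]
      intro p hp hp'
      exact hd2 p (List.mem_toFinset.1 hp') (List.mem_toFinset.1 hp)
    · show Disjoint ((y :: L3).toFinset : Set V) (Qs : Set V)
      rw [disjoint_coe, disjoint_left]
      intro p hp hp'
      exact (hall p (m3 p (List.mem_toFinset.1 hp))).2.1 hp'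
    · show Disjoint (D : Set V) (({v} : Finset V) : Set V)
      rw [disjoint_coe, disjoint_left]
      intro p hp hp'
      exact hvD (mem_singleton.1 hp' ▸ hp)
    · show Disjoint (D : Set V) (M.toFinset : Set V)
      rw [disjoint_coe, disjoint_left]
      intro p hp hp'
      exact (hall p (m2 p (List.mem_toFinset.1 hp'))).1 hp
    · show Disjoint (D : Set V) (Qs : Set V)
      rw [disjoint_coe]
      exact hDQ
  · have e0 : v ∈ (({v} : Finset V) : Set V) := by simp
    intro i j
    fin_cases i <;> fin_cases j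
    · exact ⟨ph, mem_coe.2 (List.mem_toFinset.2 hph1), v, e0, hphv⟩
    · exact ⟨x, mem_coe.2 (List.mem_toFinset.2 (by simp)), p1, mem_coe.2 (List.mem_toFinset.2 hp1),
        hxp1⟩
    · exact ⟨x, mem_coe.2 (List.mem_toFinset.2 (by simp)), w1, mem_coe.2 hw1, hw1x⟩
    · exact ⟨pl, mem_coe.2 (List.mem_toFinset.2 hpl1), v, e0, hplv⟩
    · exact ⟨y, mem_coe.2 (List.mem_toFinset.2 (by simp)), p2, mem_coe.2 (List.mem_toFinset.2 hp2),
        hyp2⟩
    · exact ⟨y, mem_coe.2 (List.mem_toFinset.2 (by simp)), w2, mem_coe.2 hw2, hw2y⟩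
    · exact ⟨w3, mem_coe.2 hw3, v, e0, hw3v.symm⟩
    · exact ⟨w4, mem_coe.2 hw4, z, mem_coe.2 (List.mem_toFinset.2 hz), hw4z.symm⟩
    · exact ⟨w5, mem_coe.2 hw5, q, mem_coe.2 hq, hw5q.symm⟩

end TB.PL
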