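import Pool.Agent.Lib.MP_80160f_co.PL.Spec

/-!
# MP_80160f_co, part PL : one step of the process
-/

set_option autoImplicit false

namespace TB.PL

open Finset

universe u

namespace fNextAux

theorem ear_left {V : Type u} {H : SimpleGraph V} {S : Finset V} {Q : List V} {x y : V}
    (h : EarL H S Q x y) : ∃ q, Q.head? = some q ∧ H.Adj x q := by
  cases Q with
  | nil => exact absurd rfl h.ne
  | cons q Q' =>
    refine ⟨q, rfl, ?_⟩
    have h1 := h.ch
    rw [List.cons_append, List.isChain_cons_cons] at h1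
    exact h1.1

theorem ear_right {V : Type u} {H : SimpleGraph V} {S : Finset V} {Q : List V} {x y : V}
    (h : EarL H S Q x y) : ∃ q, Q.getLast? = some q ∧ H.Adj q y := by
  obtain ⟨Q', q, hq⟩ : ∃ Q' q, Q = Q' ++ [q] := by
    refine ⟨Q.dropLast, Q.getLast h.ne, ?_⟩
    exact (List.dropLast_append_getLast h.ne).symm
  refine ⟨q, by rw [hq]; simp, ?_⟩
  have h1 := h.ch
  rw [hq, List.append_assoc, ← List.cons_append, List.isChain_append] at h1
  have h2 := h1.2.1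
  simp only [List.cons_append, List.nil_append, List.isChain_cons_cons] at h2
  exact h2.1

/-- an outer neighbour of a vertex of the ear -/
theorem ear_out {V : Type u} {H : SimpleGraph V} {S : Finset V} {Q : List V} {x y : V}
    (h : EarL H S Q x y) {q p : V} (hq : q ∈ Q) (hp : p ∉ Q) (hpS : p ∉ S) (hqp : H.Adj q p) :
    p = x ∨ p = y := by
  obtain ⟨i, hi, rfl⟩ := List.mem_iff_getElem.1 hq
  have h1 : p ∈ x :: (Q ++ [y]) := by
    rcases h.nb i hi p hqp hpS with h2 | h2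
    · exact List.mem_of_getElem? h2
    · exact List.mem_of_getElem? h2
  simp only [List.mem_cons, List.mem_append, List.not_mem_nil, or_false] at h1
  rcases h1 with h1 | h1 | h1
  · exact Or.inl h1
  · exact absurd h1 hp
  · exact Or.inr h1

end fNextAux

open fNextAux

theorem fNextMain (h3 : S_Core.{u}) (h4 : S_Model.{u}) (h5 : S_Deg.{u}) {V : Type u} [DecidableEq V]
    [Fintype V] {H : SimpleGraph V} {v c : V} {U : Finset V} {l r : V → V} {t : V → ℕ}
    {a b : V → ℚ} (hH : Cubic3 H) (hK : ∀ A B : Fin 3 → Set V, K33Model H A B → B 0 ≠ {v})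
    {L1 M L3 : List V} {x y : V}
    (hS : St H v c U (L1 ++ x :: (M ++ y :: L3)) l r t a b) {Qs : Finset V} (hQU : Qs ⊆ U.erase c)
    (hQne : Qs.Nonempty) (hQc : ConnIn H Qs) (hUQ : ConnIn H (U \ Qs))
    (hQ1 : ∀ q ∈ Qs, ec H {q} (U \ Qs) = 1) {Q : List V} (hE : EarL H (U \ Qs) Q x y)
    (hmem : ∀ z, z ∈ Q ↔ z ∈ Qs) (hxU : x ∉ U) (hyU : y ∉ U) (hxv : x ≠ v) (hyv : y ≠ v) :
    ∃ (U' : Finset V) (B' : List V) (l' r' : V → V) (t' : V → ℕ) (a' b' : V → ℚ),
        U'.card < U.card ∧ St H v c U' B' l' r' t' a' b' := by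
  classical
  obtain ⟨d1, d2, d3⟩ := h5 V H hH
  have hQU' : Qs ⊆ U := hQU.trans (erase_subset _ _)
  have hmX : ∀ p, p ∈ Uᶜ.erase v ↔ p ≠ v ∧ p ∉ U := fun p => by rw [mem_erase, mem_compl]
  -- a processed vertex has at most one unprocessed neighbour
  have hone : ∀ p, p ∉ U → p ≠ v → ∀ q ∈ U, ∀ q' ∈ U, H.Adj p q → H.Adj p q' → q = q' := by
    intro p hp hpv q hq q' hq' h1 h2
    have hpX : p ∈ Uᶜ.erase v := (hmX p).2 ⟨hpv, hp⟩
    have hlU : l p ∉ U := by
      rcases hS.fr.meml p hpX with h | h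
      · rw [h]; exact hS.vU
      · exact ((hmX _).1 h.1).2
    have hrU : r p ∉ U := by
      rcases hS.fr.memr p hpX with h | h
      · rw [h]; exact hS.vU
      · exact ((hmX _).1 h.1).2
    exact d1 p (l p) (r p) q q' (hS.fr.adjl p hpX) (hS.fr.adjr p hpX) (hS.fr.lr p hpX) h1
      (fun h => hlU (h ▸ hq)) (fun h => hrU (h ▸ hq)) h2 (fun h => hlU (h ▸ hq'))
      (fun h => hrU (h ▸ hq'))
  obtain ⟨q0, hq0, hxq0⟩ := ear_left hE
  obtain ⟨q1, hq1, hq1y⟩ := ear_right hE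
  have hq0Q : q0 ∈ Q := List.mem_of_mem_head? hq0
  have hq1Q : q1 ∈ Q := List.mem_of_mem_getLast? hq1
  have hq0s := (hmem q0).1 hq0Q
  have hq1s := (hmem q1).1 hq1Q
  have hpx : Pend H U x := ⟨q0, hQU' hq0s, hxq0⟩
  have hpy : Pend H U y := ⟨q1, hQU' hq1s, hq1y.symm⟩
  have hpQ : ∀ q ∈ Q, Pend H (U \ Qs) q := fun q hq => d3 q _ (hQ1 q ((hmem q).1 hq))
  have hx' : ¬ Pend H (U \ Qs) x := by
    rintro ⟨w, hw, hxw⟩
    have h1 := hone x hxU hxv w (mem_sdiff.1 hw).1 q0 (hQU' hq0s) hxw hxq0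
    exact (mem_sdiff.1 hw).2 (h1 ▸ hq0s)
  have hy' : ¬ Pend H (U \ Qs) y := by
    rintro ⟨w, hw, hyw⟩
    have h1 := hone y hyU hyv w (mem_sdiff.1 hw).1 q1 (hQU' hq1s) hyw hq1y.symm
    exact (mem_sdiff.1 hw).2 (h1 ▸ hq1s)
  have hmono : ∀ p, Pend H (U \ Qs) p → Pend H U p := fun p ⟨w, hw, hpw⟩ =>
    ⟨w, (mem_sdiff.1 hw).1, hpw⟩
  -- a processed pending vertex stays pending or is an end
  have hstay : ∀ p, p ∉ U → Pend H U p → p = x ∨ p = y ∨ Pend H (U \ Qs) p := by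
    rintro p hp ⟨w, hw, hpw⟩
    by_cases hwQ : w ∈ Qs
    · rcases ear_out hE ((hmem w).2 hwQ) (fun h => hp (hQU' ((hmem p).1 h)))
        (fun h => hp (mem_sdiff.1 h).1) hpw.symm with h | h
      · exact Or.inl h
      · exact Or.inr (Or.inl h)
    · exact Or.inr (Or.inr ⟨w, mem_sdiff.2 ⟨hw, hwQ⟩, hpw⟩)
  have hord := hS.ord
  rw [List.pairwise_append, List.pairwise_cons, List.pairwise_append, List.pairwise_cons] at hord
  obtain ⟨o1, ⟨o2, o3, ⟨o4, o5⟩, o6⟩, o7⟩ := hord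
  have hxy := o2 y (List.mem_append_right _ List.mem_cons_self) hpx hpy
  -- the part between the ends is not pending
  have hM : ∀ z ∈ M, ¬ Pend H (U \ Qs) z := by
    intro z hz hpz
    obtain ⟨A, B, hAB, hB0⟩ := h4 V H v x y z (U \ Qs) Qs L1 M L3 hS.Bn hS.Bc (by
      intro p hp
      have h1 := hS.BX p hp
      exact ⟨fun h => h1.1 (mem_sdiff.1 h).1, fun h => h1.1 (hQU' h), h1.2⟩) sdiff_disjoint
      (fun h => hS.vU (mem_sdiff.1 h).1) (fun h => hS.vU (hQU' h)) hS.Bh hS.Bl hUQ hQc hz hpz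
      ⟨q0, hq0s, hxq0⟩ ⟨q1, hq1s, hq1y.symm⟩
      ⟨c, mem_sdiff.2 ⟨hS.cU, fun h => (mem_erase.1 (hQU h)).1 rfl⟩, hS.cv.symm⟩
      ⟨q0, hq0s, hpQ q0 hq0Q⟩
    exact hK A B hAB hB0
  have hxX : x ∈ Uᶜ.erase v := (hmX x).2 ⟨hxv, hxU⟩
  have hyX : y ∈ Uᶜ.erase v := (hmX y).2 ⟨hyv, hyU⟩
  obtain ⟨l', r', t', a', b', hF, hold, hQab, hQpw, hlast, hhead⟩ :=
    h3 V H v (Uᶜ.erase v) (U \ Qs) l r t a b Q x y hS.fr hE (by
      intro p hp
      have h1 := (hmem p).1 hp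
      exact ⟨fun h => ((hmX p).1 h).2 (hQU' h1), fun h => hS.vU (h ▸ hQU' h1),
        fun h => (mem_sdiff.1 h).2 h1⟩) (by
      intro p hp h
      exact ((hmX p).1 hp).2 (mem_sdiff.1 h).1) hxX hyX hxy.1 hxy.2
  have hset : Uᶜ.erase v ∪ Q.toFinset = (U \ Qs)ᶜ.erase v := by
    ext p
    rw [mem_union, List.mem_toFinset, hmX, mem_erase, mem_compl, mem_sdiff, hmem]
    constructor
    · rintro (h | h)
      · exact ⟨h.1, fun h1 => h.2 h1.1⟩
      · exact ⟨fun h1 => hS.vU (h1 ▸ hQU' h), fun h1 => h1.2 h⟩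
    · rintro ⟨h, h1⟩
      by_cases h2 : p ∈ Qs
      · exact Or.inr h2
      · exact Or.inl ⟨h, fun h3 => h1 ⟨h3, h2⟩⟩
  rw [hset] at hF
  have hBX : ∀ p ∈ L1 ++ x :: (M ++ y :: L3), p ∈ Uᶜ.erase v := fun p hp =>
    (hmX p).2 ⟨(hS.BX p hp).2, (hS.BX p hp).1⟩
  -- members of the new list
  have hmemB : ∀ p, p ∈ L1 ++ x :: (Q ++ y :: L3) ↔
      p ∈ L1 ∨ p = x ∨ p ∈ Q ∨ p = y ∨ p ∈ L3 := by
    intro p
    simp only [List.mem_append, List.mem_cons]
  have hL1X : ∀ p ∈ L1, p ∈ Uᶜ.erase v := fun p hp => hBX p (List.mem_append_left _ hp)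
  have hL3X : ∀ p ∈ L3, p ∈ Uᶜ.erase v := fun p hp => hBX p
    (List.mem_append_right _ (List.mem_cons_of_mem _ (List.mem_append_right _
      (List.mem_cons_of_mem _ hp))))
  have hQX : ∀ p ∈ Q, p ∉ Uᶜ.erase v := fun p hp h =>
    ((hmX p).1 h).2 (hQU' ((hmem p).1 hp))
  refine ⟨U \ Qs, L1 ++ x :: (Q ++ y :: L3), l', r', t', a', b', ?_, ?_⟩
  · exact card_lt_card (sdiff_ssubset hQU' hQne)
  refine ⟨hF, fun h => hS.vU (mem_sdiff.1 h).1, mem_sdiff.2 ⟨hS.cU,
    fun h => (mem_erase.1 (hQU h)).1 rfl⟩, hUQ, hS.cv, fun p hp => hS.nv p (mem_sdiff.1 hp).1,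
    ?_, ?_, ?_, ?_, ?_, ?_, ?_, ?_, ?_, ?_⟩
  · -- vn
    intro p hp hpv
    by_cases hpU : p ∈ U
    · have h1 : p ∈ Qs := by
        by_contra h2
        exact hp (mem_sdiff.2 ⟨hpU, h2⟩)
      exact absurd hpv (hS.nv p hpU (mem_erase.1 (hQU h1)).1)
    · have h1 := hold p ((hmX p).2 ⟨hpv.ne, hpU⟩)
      rw [h1.1, h1.2.1]
      exact hS.vn p hpU hpv
  · -- Bn
    have h1 := hS.Bn
    rw [List.nodup_append, List.nodup_cons, List.nodup_append, List.nodup_cons] at h1 ⊢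
    obtain ⟨n1, ⟨n2, n3, ⟨n4, n5⟩, n6⟩, n7⟩ := h1
    refine ⟨n1, ⟨?_, hE.nd, ⟨n4, n5⟩, ?_⟩, ?_⟩
    · rw [List.mem_append]
      rintro (h | h)
      · exact hQX x h hxX
      · exact n2 (List.mem_append_right _ h)
    · intro p hp q hq hpq
      rw [List.mem_cons] at hq
      apply hQX p hp
      rw [hpq]
      rcases hq with h | h
      · rw [h]; exact hyX
      · exact hL3X q h
    · intro p hp q hq hpq
      rw [List.mem_cons, List.mem_append, List.mem_cons] at hq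
      rcases hq with h | h | h | h
      · exact n7 p hp q (by rw [h]; exact List.mem_cons_self) hpq
      · exact hQX q h (hpq ▸ hL1X p hp)
      · exact n7 p hp q (by rw [h]; exact List.mem_cons_of_mem _ (List.mem_append_right _
          List.mem_cons_self)) hpq
      · exact n7 p hp q (List.mem_cons_of_mem _ (List.mem_append_right _
          (List.mem_cons_of_mem _ h))) hpq
  · -- BX
    intro p hp
    rcases (hmemB p).1 hp with h | h | h | h | h
    · have h1 := (hmX p).1 (hL1X p h)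
      exact ⟨fun h2 => h1.2 (mem_sdiff.1 h2).1, h1.1⟩
    · rw [h]
      exact ⟨fun h2 => hxU (mem_sdiff.1 h2).1, hxv⟩
    · have h1 := (hmem p).1 h
      exact ⟨fun h2 => (mem_sdiff.1 h2).2 h1, fun h2 => hS.vU (h2 ▸ hQU' h1)⟩
    · rw [h]
      exact ⟨fun h2 => hyU (mem_sdiff.1 h2).1, hyv⟩
    · have h1 := (hmX p).1 (hL3X p h)
      exact ⟨fun h2 => h1.2 (mem_sdiff.1 h2).1, h1.1⟩
  · -- Bc
    have h1 := hS.Bc
    have h2 := hE.ch
    have e1 : L1 ++ x :: (M ++ y :: L3) = (L1 ++ x :: M) ++ y :: L3 := by simp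
    rw [List.isChain_append] at h1 ⊢
    obtain ⟨c1, c2, c3⟩ := h1
    refine ⟨c1, ?_, ?_⟩
    · have e2 : x :: (M ++ y :: L3) = (x :: M) ++ y :: L3 := rfl
      rw [e2, List.isChain_append] at c2
      have e3 : x :: (Q ++ [y]) = (x :: Q) ++ [y] := rfl
      rw [e3, List.isChain_append] at h2
      have e4 : x :: (Q ++ y :: L3) = (x :: Q) ++ y :: L3 := rfl
      rw [e4, List.isChain_append]
      refine ⟨h2.1, c2.2.1, ?_⟩
      intro p hp q hq
      exact h2.2.2 p hp q (by simpa using hq)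
    · intro p hp q hq
      exact c3 p hp q (by simpa using hq)
  · -- Bh
    obtain ⟨p, hp, hpv⟩ := hS.Bh
    refine ⟨p, ?_, hpv⟩
    cases L1 with
    | nil => simpa using hp
    | cons z L => simpa using hp
  · -- Bl
    obtain ⟨p, hp, hpv⟩ := hS.Bl
    refine ⟨p, ?_, hpv⟩
    have e1 : L1 ++ x :: (M ++ y :: L3) = (L1 ++ x :: M) ++ y :: L3 := by simp
    have e2 : L1 ++ x :: (Q ++ y :: L3) = (L1 ++ x :: Q) ++ y :: L3 := by simp
    rw [e1, List.getLast?_append_of_ne_nil _ (List.cons_ne_nil _ _)] at hp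
    rw [e2, List.getLast?_append_of_ne_nil _ (List.cons_ne_nil _ _)]
    exact hp
  · -- pB
    intro p hp hpv hpp
    rw [hmemB]
    by_cases hpU : p ∈ U
    · refine Or.inr (Or.inr (Or.inl ((hmem p).2 ?_)))
      by_contra h2
      exact hp (mem_sdiff.2 ⟨hpU, h2⟩)
    · have h1 := hS.pB p hpU hpv (hmono p hpp)
      rw [List.mem_append, List.mem_cons, List.mem_append, List.mem_cons] at h1
      rcases h1 with h | h | h | h | h
      · exact Or.inl h
      · exact Or.inr (Or.inl h)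
      · exact absurd hpp (hM p h)
      · exact Or.inr (Or.inr (Or.inr (Or.inl h)))
      · exact Or.inr (Or.inr (Or.inr (Or.inr h)))
  · -- ord
    rw [List.pairwise_append, List.pairwise_cons, List.pairwise_append, List.pairwise_cons]
    refine ⟨?_, ⟨?_, ?_, ⟨?_, ?_⟩, ?_⟩, ?_⟩
    · refine o1.imp_of_mem ?_
      intro p q hp hq h hp1 hq1
      have e1 := hold p (hL1X p hp)
      have e2 := hold q (hL1X q hq)
      rw [e1.2.2.1, e1.2.2.2, e2.2.2.1, e2.2.2.2]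
      exact h (hmono p hp1) (hmono q hq1)
    · intro q _ hp1 _
      exact absurd hp1 hx'
    · exact hQpw.imp fun h _ _ => h
    · intro q _ hp1 _
      exact absurd hp1 hy'
    · refine o5.imp_of_mem ?_
      intro p q hp hq h hp1 hq1
      have e1 := hold p (hL3X p hp)
      have e2 := hold q (hL3X q hq)
      rw [e1.2.2.1, e1.2.2.2, e2.2.2.1, e2.2.2.2]
      exact h (hmono p hp1) (hmono q hq1)
    · intro p hp q hq hp1 hq1
      rw [List.mem_cons] at hq
      rcases hq with hq | hq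
      · rw [hq] at hq1
        exact absurd hq1 hy'
      · have e2 := hold q (hL3X q hq)
        have e3 := hQab p hp
        have e4 := o4 q hq hpy (hmono q hq1)
        rw [e2.2.2.1, e2.2.2.2]
        exact ⟨lt_of_le_of_lt e3.2.1 e4.1, lt_trans e3.2.2.2 e4.2⟩
    · intro p hp q hq hp1 hq1
      have e1 := hold p (hL1X p hp)
      rw [List.mem_cons, List.mem_append, List.mem_cons] at hq
      rcases hq with hq | hq | hq | hq
      · rw [hq] at hq1
        exact absurd hq1 hx'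
      · have e3 := hQab q hq
        have e4 := o7 p hp x List.mem_cons_self (hmono p hp1) hpx
        rw [e1.2.2.1, e1.2.2.2]
        exact ⟨lt_trans e4.1 e3.1, lt_of_lt_of_le e4.2 e3.2.2.1⟩
      · rw [hq] at hq1
        exact absurd hq1 hy'
      · have e2 := hold q (hL3X q hq)
        have e4 := o7 p hp q (List.mem_cons_of_mem _ (List.mem_append_right _
          (List.mem_cons_of_mem _ hq))) (hmono p hp1) (hmono q hq1)
        rw [e1.2.2.1, e1.2.2.2, e2.2.2.1, e2.2.2.2]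
        exact e4
  · -- p1
    obtain ⟨p, hpU, hpv, hpp, hp1⟩ := hS.p1
    rcases hstay p hpU hpp with h | h | h
    · exfalso
      have h1 := hS.fr.a1 y hyX
      rw [h] at hp1
      have h2 := hxy.1
      rw [hp1] at h2
      exact absurd h1 (not_le.2 h2)
    · refine ⟨q1, fun h2 => (mem_sdiff.1 h2).2 hq1s, fun h2 => hS.vU (h2 ▸ hQU' hq1s),
        hpQ q1 hq1Q, ?_⟩
      rw [hlast q1 hq1, ← h, hp1]
    · exact ⟨p, fun h2 => hpU (mem_sdiff.1 h2).1, hpv, h, by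
        rw [(hold p ((hmX p).2 ⟨hpv, hpU⟩)).2.2.1, hp1]⟩
  · -- p0
    obtain ⟨p, hpU, hpv, hpp, hp0⟩ := hS.p0
    rcases hstay p hpU hpp with h | h | h
    · refine ⟨q0, fun h2 => (mem_sdiff.1 h2).2 hq0s, fun h2 => hS.vU (h2 ▸ hQU' hq0s),
        hpQ q0 hq0Q, ?_⟩
      rw [hhead q0 hq0, ← h, hp0]
    · exfalso
      have h1 := hS.fr.b0 x hxX
      rw [h] at hp0
      have h2 := hxy.2
      rw [hp0] at h2
      exact absurd h1 (not_le.2 h2)
    · exact ⟨p, fun h2 => hpU (mem_sdiff.1 h2).1, hpv, h, by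
        rw [(hold p ((hmX p).2 ⟨hpv, hpU⟩)).2.2.2, hp0]⟩

theorem fNext (h1 : S_Path.{u}) (h2 : S_Rev.{u}) (h3 : S_Core.{u}) (h4 : S_Model.{u})
    (h5 : S_Deg.{u}) : S_Next.{u} := by
  intro V _ _ H v c U B l r t a b hH hK hS hne
  obtain ⟨Qs, hQU, hQne, hQc, hUQ, hQ2, hQ1⟩ := ear hH hS.cU hS.conn hne ⟨v, hS.vU, hS.cv⟩
  have hQU' : Qs ⊆ U := hQU.trans (erase_subset _ _)
  obtain ⟨Q, x, y, hE, hmem, hxU, hyU⟩ := h1 V H hH U Qs hQU' hQne hQc hQ2 hQ1
  obtain ⟨d1, -, -⟩ := h5 V H hH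
  obtain ⟨q0, hq0, hxq0⟩ := ear_left hE
  obtain ⟨q1, hq1, hq1y⟩ := ear_right hE
  have hq0Q : q0 ∈ Q := List.mem_of_mem_head? hq0
  have hq1Q : q1 ∈ Q := List.mem_of_mem_getLast? hq1
  have hq0s := (hmem q0).1 hq0Q
  have hq1s := (hmem q1).1 hq1Q
  have hxv : x ≠ v := by
    rintro rfl
    exact hS.nv q0 (hQU' hq0s) (mem_erase.1 (hQU hq0s)).1 hxq0.symm
  have hyv : y ≠ v := by
    rintro rfl
    exact hS.nv q1 (hQU' hq1s) (mem_erase.1 (hQU hq1s)).1 hq1y
  have hxB : x ∈ B := hS.pB x hxU hxv ⟨q0, hQU' hq0s, hxq0⟩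
  have hyB : y ∈ B := hS.pB y hyU hyv ⟨q1, hQU' hq1s, hq1y.symm⟩
  have hxy : x ≠ y := by
    intro hxy
    have h6 : q0 ≠ q1 := by
      intro h6
      apply hE.one _ hxy
      cases Q with
      | nil => exact absurd rfl hE.ne
      | cons z Q' =>
        cases Q' with
        | nil => rfl
        | cons z' Q'' =>
          exfalso
          have h7 : z = q0 := by simpa using hq0
          have h8 : q1 ∈ z' :: Q'' := by
            rw [List.getLast?_cons_cons] at hq1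
            exact List.mem_of_mem_getLast? hq1
          have h9 := hE.nd
          rw [List.nodup_cons] at h9
          exact h9.1 (by rw [h7, h6]; exact h8)
    have hxX : x ∈ Uᶜ.erase v := mem_erase.2 ⟨hxv, mem_compl.2 hxU⟩
    have hlU : l x ∉ U := by
      rcases hS.fr.meml x hxX with h | h
      · rw [h]; exact hS.vU
      · exact mem_compl.1 (mem_erase.1 h.1).2
    have hrU : r x ∉ U := by
      rcases hS.fr.memr x hxX with h | h
      · rw [h]; exact hS.vU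
      · exact mem_compl.1 (mem_erase.1 h.1).2
    exact h6 (d1 x (l x) (r x) q0 q1 (hS.fr.adjl x hxX) (hS.fr.adjr x hxX) (hS.fr.lr x hxX) hxq0
      (fun h => hlU (h ▸ hQU' hq0s)) (fun h => hrU (h ▸ hQU' hq0s)) (hxy ▸ hq1y.symm)
      (fun h => hlU (h ▸ hQU' hq1s)) (fun h => hrU (h ▸ hQU' hq1s)))
  obtain ⟨L1, R, hB⟩ := List.append_of_mem hxB
  rw [hB, List.mem_append, List.mem_cons] at hyB
  rcases hyB with hy | hy | hy
  · obtain ⟨L0, M, hL⟩ := List.append_of_mem hy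
    have hB2 : B = L0 ++ y :: (M ++ x :: R) := by rw [hB, hL]; simp
    rw [hB2] at hS
    exact fNextMain h3 h4 h5 hH hK hS hQU hQne hQc hUQ hQ1 (h2 V H _ Q x y hE)
      (fun z => by rw [List.mem_reverse]; exact hmem z) hyU hxU hyv hxv
  · exact absurd hy.symm hxy
  · obtain ⟨M, L3, hR⟩ := List.append_of_mem hy
    have hB2 : B = L1 ++ x :: (M ++ y :: L3) := by rw [hB, hR]
    rw [hB2] at hS
    exact fNextMain h3 h4 h5 hH hK hS hQU hQne hQc hUQ hQ1 hE hmem hxU hyU hxv hyv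

end TB.PL
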