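import Pool.Agent.Lib.MP_80160f_co.PL.Spec

/-!
# MP_80160f_co, PL, Rev: the reversed ear
-/

set_option autoImplicit false

namespace TB.PL

open Finset

universe u

theorem fRev : S_Rev.{u} := by
  intro V H S Q x y h
  have hrev : (x :: (Q ++ [y])).reverse = y :: (Q.reverse ++ [x]) := by simp
  refine ⟨List.nodup_reverse.mpr h.nd, ?_, ?_, ?_, ?_, ?_, ?_⟩
  · intro h1
    exact h.ne (List.reverse_eq_nil_iff.mp h1)
  · intro h1
    exact h.yQ (List.mem_reverse.mp h1)
  · intro h1
    exact h.xQ (List.mem_reverse.mp h1)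
  · rw [← hrev, List.isChain_reverse]
    exact h.ch.imp (fun a b hab => hab.symm)
  · intro h1
    rw [List.length_reverse] at h1
    exact (h.one h1).symm
  · intro i hi z hz hzS
    have hi' : i < Q.length := by
      rw [List.length_reverse] at hi
      exact hi
    rw [List.getElem_reverse] at hz
    have hlen : (x :: (Q ++ [y])).length = Q.length + 2 := by simp
    have h1 : (y :: (Q.reverse ++ [x]))[i]? = (x :: (Q ++ [y]))[Q.length - 1 - i + 2]? := by
      rw [← hrev, List.getElem?_reverse (by rw [hlen]; omega), hlen,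
        show Q.length + 2 - 1 - i = Q.length - 1 - i + 2 by omega]
    have h2 : (y :: (Q.reverse ++ [x]))[i + 2]? = (x :: (Q ++ [y]))[Q.length - 1 - i]? := by
      rw [← hrev, List.getElem?_reverse (by rw [hlen]; omega), hlen,
        show Q.length + 2 - 1 - (i + 2) = Q.length - 1 - i by omega]
    rw [h1, h2]
    exact (h.nb (Q.length - 1 - i) (by omega) z hz hzS).symm

end TB.PL
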