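import Pool.Agent.Lib.MP_80160f_co.PL.Spec

/-!
# MP_80160f_co, part PL : the right end edges
-/

set_option autoImplicit false

namespace TB.PL

open Finset

universe u

namespace fRightAux

variable {V : Type u} [DecidableEq V] [Fintype V] {H : SimpleGraph V} {v : V} {l r : V → V}
  {t : V → ℕ} {a b : V → ℚ} {R : V → V → Prop}

theorem back (hF : Fr H v (univ.erase v) l r t a b) (hC : Cl H v (fun p q => t p < t q ∧ r q = p) R) :
    ∀ (n : ℕ) (p : V), p ≠ v → t p = n → ∃ p0, p0 ≠ v ∧ R p p0 ∧ a p0 = a p ∧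
      (r p0 = v ∨ (r p0 ≠ v ∧ a p0 < a (r p0))) := by
  intro n
  induction n using Nat.strong_induction_on with
  | _ n ih =>
    intro p hp hn
    have hm : ∀ q : V, q ≠ v → q ∈ univ.erase v := fun q hq => mem_erase.2 ⟨hq, mem_univ q⟩
    by_cases hrv : r p = v
    · exact ⟨p, hp, hC.refl p hp, rfl, Or.inl hrv⟩
    obtain ⟨-, htw⟩ : r p ∈ univ.erase v ∧ t (r p) ≤ t p := by
      rcases hF.memr p (hm p hp) with h | h
      · exact absurd h hrv
      · exact h
    have hadj := hF.adjr p (hm p hp)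
    rcases hF.ty (r p) (hm _ hrv) p (hm p hp) hadj.symm htw with ⟨h0, h | h⟩ | ⟨h0, h | h⟩
    · exact absurd h.2.1 (hF.lr p (hm p hp))
    · exact ⟨p, hp, hC.refl p hp, rfl, Or.inr ⟨hrv, h.2.2.1⟩⟩
    · exact absurd h.1 (hF.lr p (hm p hp))
    · obtain ⟨p0, h1, h2, h3, h4⟩ := ih (t (r p)) (hn ▸ h0) (r p) hrv rfl
      have h5 : R (r p) p := hC.edge _ _ hrv hp hadj.symm ⟨h0, rfl⟩
      exact ⟨p0, h1, hC.trans _ _ _ (hC.symm _ _ h5) h2, h3.trans h.2.1, h4⟩

theorem fwd (hd : ∀ p m n : V, ∃ q, H.Adj p q ∧ q ≠ m ∧ q ≠ n) (hF : Fin0 H v l r t a b)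
    (hC : Cl H v (fun p q => t p < t q ∧ r q = p) R) :
    ∀ (n : ℕ) (p : V), p ≠ v → a p < 1 → (univ.filter fun q => t p < t q).card = n →
      ∃ p1 w, p1 ≠ v ∧ R p p1 ∧ w ≠ v ∧ H.Adj p1 w ∧ w ≠ r p1 ∧ a p < a w := by
  intro n
  induction n using Nat.strong_induction_on with
  | _ n ih =>
    intro p hp hap hn
    have hm : ∀ q : V, q ≠ v → q ∈ univ.erase v := fun q hq => mem_erase.2 ⟨hq, mem_univ q⟩
    obtain ⟨w, hpw, hwl, hwr⟩ := hd p (l p) (r p)
    have hwv : w ≠ v := by
      rintro rfl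
      exact hap.ne (hF.last p hpw (fun h => hwl h.symm) (fun h => hwr h.symm)).1
    have hlt : t p < t w := by
      by_contra hle
      rw [not_lt] at hle
      rcases hF.fr.ty w (hm w hwv) p (hm p hp) hpw.symm hle with ⟨h0, h | h⟩ | ⟨h0, h | h⟩
      · exact hwl h.2.1.symm
      · exact hwr h.1.symm
      · exact hwl h.1.symm
      · exact hwr h.1.symm
    rcases hF.fr.ty p (hm p hp) w (hm w hwv) hpw hlt.le with ⟨h0, h⟩ | ⟨h0, h | h⟩
    · exact absurd h0 hlt.ne
    · exact ⟨p, w, hp, hC.refl p hp, hwv, hpw, hwr, h.2.1⟩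
    · have hcard : (univ.filter fun q => t w < t q).card < n := by
        rw [← hn]
        apply card_lt_card
        refine ⟨?_, ?_⟩
        · intro q hq
          rw [mem_filter] at hq ⊢
          exact ⟨hq.1, hlt.trans hq.2⟩
        · intro hsub
          have h1 := hsub (mem_filter.2 ⟨mem_univ w, hlt⟩)
          exact lt_irrefl _ (mem_filter.1 h1).2
      obtain ⟨p1, w1, h1, h2, h3, h4, h5, h6⟩ := ih _ hcard w hwv (h.2.1 ▸ hap) rfl
      have h7 : R p w := hC.edge _ _ hp hwv hpw ⟨hlt, h.1⟩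
      exact ⟨p1, w1, h1, hC.trans _ _ _ h7 h2, h3, h4, h5, h.2.1 ▸ h6⟩

end fRightAux

open fRightAux

theorem fRight (h1 : S_Deg.{u}) : S_Right.{u} := by
  intro V _ _ H v l r t a b R hH hF hC
  obtain ⟨-, hd, -⟩ := h1 V H hH
  have hm : ∀ q : V, q ≠ v → q ∈ univ.erase v := fun q hq => mem_erase.2 ⟨hq, mem_univ q⟩
  have hbound : ∀ p : V, p ≠ v → a p ≤ 1 := fun p hp => hF.fr.a1 p (hm p hp)
  -- the top vertices
  have htop : ∀ p : V, p ≠ v → a p = 1 → ∃ z, z ≠ v ∧ R p z ∧ r z = v := by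
    intro p hp ha
    obtain ⟨p0, h2, h3, h4, h5 | h5⟩ := back hF.fr hC _ p hp rfl
    · exact ⟨p0, h2, h3, h5⟩
    · exfalso
      have h6 := hbound _ h5.1
      have h7 := h5.2
      rw [h4, ha] at h7
      exact absurd h6 (not_le.2 h7)
  -- two vertices of the same potential or a vertex below
  have hstep : ∀ p : V, p ≠ v → a p < 1 →
      (∀ q q' : V, q ≠ v → q' ≠ v → a p < a q → a p < a q' → R q q') →
      ∃ w, w ≠ v ∧ a p < a w ∧ R p w := by
    intro p hp hap ih
    obtain ⟨p0, h2, h3, h4, h5⟩ := back hF.fr hC _ p hp rfl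
    have hr0 : r p0 ≠ v := by
      intro h6
      have h7 := (hF.fr.rv p0 (hm _ h2) h6).2
      rw [h4] at h7
      exact hap.ne h7
    have hlt : a p < a (r p0) := by
      rcases h5 with h5 | h5
      · exact absurd h5 hr0
      · rw [← h4]
        exact h5.2
    obtain ⟨p1, w1, g1, g2, g3, g4, g5, g6⟩ := fwd hd hF hC _ p hp hap rfl
    have h6 : R p0 p1 := hC.trans _ _ _ (hC.symm _ _ h3) g2
    have h7 : R (r p0) w1 := ih _ _ hr0 g3 hlt g6
    have h8 : R p0 (r p0) := hC.merge p0 (r p0) p1 w1 h2 hr0 g1 g3 h6 h7 (by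
      rintro ⟨h9, h10⟩
      exact g5 (by rw [← h9, h10])) (hF.fr.adjr p0 (hm _ h2)) g4
    exact ⟨r p0, hr0, hlt, hC.trans _ _ _ h3 h8⟩
  -- the induction
  have key : ∀ (n : ℕ) (x : ℚ), (univ.filter fun q => x < a q).card = n →
      ∀ p q : V, p ≠ v → q ≠ v → x < a p → x < a q → R p q := by
    intro n
    induction n using Nat.strong_induction_on with
    | _ n ih =>
      intro x hn
      have ih2 : ∀ p : V, x < a p → ∀ q q' : V, q ≠ v → q' ≠ v → a p < a q → a p < a q' →
          R q q' := by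
        intro p hxp
        refine ih _ ?_ (a p) rfl
        rw [← hn]
        apply card_lt_card
        refine ⟨?_, ?_⟩
        · intro q hq
          rw [mem_filter] at hq ⊢
          exact ⟨hq.1, hxp.trans hq.2⟩
        · intro hsub
          have h2 := hsub (mem_filter.2 ⟨mem_univ p, hxp⟩)
          exact lt_irrefl _ (mem_filter.1 h2).2
      -- everything above `x` is related to a top vertex
      have h3 : ∀ p : V, p ≠ v → x < a p → ∃ z, z ≠ v ∧ R p z ∧ r z = v := by
        intro p hp hxp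
        rcases (hbound p hp).lt_or_eq with h4 | h4
        · obtain ⟨w, hw, hpw, hR⟩ := hstep p hp h4 (ih2 p hxp)
          rcases (hbound w hw).lt_or_eq with h5 | h5
          · -- `w` is related to a vertex of the largest potential
            obtain ⟨m, hm1, hm2⟩ := exists_max_image (univ.filter fun q => q ≠ v ∧ a p < a q) a
              ⟨w, mem_filter.2 ⟨mem_univ _, hw, hpw⟩⟩
            rw [mem_filter] at hm1
            have h6 : R w m := ih2 p hxp w m hw hm1.2.1 hpw hm1.2.2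
            have h7 : a m = 1 := by
              by_contra h7
              have h8 : a m < 1 := lt_of_le_of_ne (hbound m hm1.2.1) h7
              obtain ⟨w', hw', hmw', -⟩ := hstep m hm1.2.1 h8 (by
                intro q q' hq hq' h9 h10
                exact ih2 p hxp q q' hq hq' (hm1.2.2.trans h9) (hm1.2.2.trans h10))
              have h9 := hm2 w' (mem_filter.2 ⟨mem_univ _, hw', hm1.2.2.trans hmw'⟩)
              exact absurd h9 (not_le.2 hmw')
            obtain ⟨z, hz1, hz2, hz3⟩ := htop m hm1.2.1 h7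
            exact ⟨z, hz1, hC.trans _ _ _ hR (hC.trans _ _ _ h6 hz2), hz3⟩
          · obtain ⟨z, hz1, hz2, hz3⟩ := htop w hw h5
            exact ⟨z, hz1, hC.trans _ _ _ hR hz2, hz3⟩
        · exact htop p hp h4
      intro p q hp hq hxp hxq
      obtain ⟨z, hz1, hz2, hz3⟩ := h3 p hp hxp
      obtain ⟨z', hz1', hz2', hz3'⟩ := h3 q hq hxq
      have h4 := hF.fr.rv1 z (hm z hz1) z' (hm z' hz1') hz3 hz3'
      rw [← h4] at hz2'
      exact hC.trans _ _ _ hz2 (hC.symm _ _ hz2')
  intro p q hp hq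
  refine key _ (min (a p) (a q) - 1) rfl p q hp hq ?_ ?_
  · have := min_le_left (a p) (a q)
    linarith
  · have := min_le_right (a p) (a q)
    linarith

end TB.PL
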