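import Pool.Agent.Lib.MP_80160f_co.PL.Spec

/-!
# MP_80160f_co, part PL : the start
-/

set_option autoImplicit false

namespace TB.PL

open Finset

universe u

theorem fStart (h1 : S_Path.{u}) (h2 : S_Init.{u}) (h3 : S_Deg.{u}) : S_Start.{u} := by
  intro V _ _ H v hH
  obtain ⟨hd1, hd2, hd3⟩ := h3 V H hH
  obtain ⟨c, hvc, hcv', -⟩ := hd2 v v v
  obtain ⟨x0, hcx0, hx0v, -⟩ := hd2 c v v
  have hcU : c ∈ (univ.erase v : Finset V) := mem_erase.2 ⟨hcv', mem_univ c⟩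
  obtain ⟨Qs, hQU, hQne, hQc, hUQ, hQ2, hQ1⟩ := ear hH hcU (hH.conn_erase v)
    ⟨x0, mem_erase.2 ⟨hx0v, mem_univ x0⟩, hcx0.ne'⟩ ⟨v, notMem_erase v _, hvc.symm⟩
  have hQU' : Qs ⊆ univ.erase v := fun z hz => (mem_erase.1 (hQU hz)).2
  obtain ⟨Q, x, y, hE, hQm, hx, hy⟩ := h1 V H hH (univ.erase v) Qs hQU' hQne hQc hQ2 hQ1
  have hxv : x = v := by
    by_contra h
    exact hx (mem_erase.2 ⟨h, mem_univ x⟩)
  have hyv : y = v := by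
    by_contra h
    exact hy (mem_erase.2 ⟨h, mem_univ y⟩)
  rw [hxv, hyv] at hE
  obtain ⟨U, hU⟩ : ∃ U, U = univ.erase v \ Qs := ⟨_, rfl⟩
  rw [← hU] at hE hUQ hQ1
  have hmU : ∀ z, z ∈ U ↔ z ≠ v ∧ z ∉ Qs := by
    intro z
    rw [hU, mem_sdiff, mem_erase]
    exact ⟨fun h => ⟨h.1.1, h.2⟩, fun h => ⟨⟨h.1, mem_univ z⟩, h.2⟩⟩
  have hQx : ∀ z ∈ Qs, z ≠ v := fun z hz => (mem_erase.1 (hQU' hz)).1
  have hcQ : c ∉ Qs := fun h => (mem_erase.1 (hQU h)).1 rfl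
  obtain ⟨l, r, t, a, b, hFr, hPw, hla, hhb, hvn⟩ := h2 V H v U Q hE (by
    intro p hp h
    exact ((hmU p).1 h).2 ((hQm p).1 hp))
  have hXU : Uᶜ.erase v = Q.toFinset := by
    ext z
    rw [mem_erase, mem_compl, hmU, List.mem_toFinset, hQm]
    constructor
    · rintro ⟨h4, h5⟩
      by_contra h6
      exact h5 ⟨h4, h6⟩
    · intro h4
      exact ⟨hQx z h4, fun h5 => h5.2 h4⟩
  have hxU : v ∉ U := fun h => ((hmU v).1 h).1 rfl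
  -- the first and the last vertex
  obtain ⟨q1, hq1⟩ : ∃ q1, Q.head? = some q1 := by
    cases hQ : Q with
    | nil => exact absurd hQ hE.ne
    | cons q T => exact ⟨q, rfl⟩
  obtain ⟨q2, hq2⟩ : ∃ q2, Q.getLast? = some q2 := ⟨Q.getLast hE.ne, List.getLast?_eq_getLast_of_ne_nil hE.ne⟩
  have hq1Q : q1 ∈ Q := List.mem_of_mem_head? hq1
  have hq2Q : q2 ∈ Q := List.mem_of_getLast? hq2
  have hlen : 2 ≤ Q.length := by
    have h4 : Q.length ≠ 0 := fun h0 => hE.ne (List.length_eq_zero_iff.mp h0)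
    have h5 : Q.length ≠ 1 := fun h0 => hE.one h0 rfl
    omega
  have hq12 : q1 ≠ q2 := by
    rw [List.head?_eq_getElem?] at hq1
    rw [List.getLast?_eq_getElem?] at hq2
    obtain ⟨h4, h5⟩ := List.getElem?_eq_some_iff.mp hq1
    obtain ⟨h6, h7⟩ := List.getElem?_eq_some_iff.mp hq2
    intro h8
    have h9 := (List.Nodup.getElem_inj_iff hE.nd).mp (h5.trans (h8.trans h7.symm))
    omega
  have hch := hE.ch
  rw [List.isChain_cons, List.isChain_append] at hch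
  obtain ⟨hch1, hch2, -, hch3⟩ := hch
  have hxq1 : H.Adj v q1 := by
    apply hch1
    rw [List.head?_append, hq1]
    rfl
  have hq2x : H.Adj q2 v := hch3 q2 hq2 v rfl
  have hpend : ∀ p ∈ Q, Pend H U p := fun p hp => hd3 p U (hQ1 p ((hQm p).1 hp))
  have hQU2 : ∀ p ∈ Q, p ∉ U ∧ p ≠ v := fun p hp =>
    ⟨fun h => ((hmU p).1 h).2 ((hQm p).1 hp), hQx p ((hQm p).1 hp)⟩
  refine ⟨c, U, Q, l, r, t, a, b, ?_⟩
  refine ⟨hXU ▸ hFr, hxU, (hmU c).2 ⟨hcv', hcQ⟩, hUQ, hvc.symm, ?_, ?_, hE.nd, hQU2, hch2,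
    ⟨q1, hq1, hxq1.symm⟩, ⟨q2, hq2, hq2x⟩, ?_, ?_, ?_, ?_⟩
  · intro p hp hpc hpx
    have hp' := (hmU p).1 hp
    have hne : ∀ q ∈ Q, ∀ z, z ∉ Qs → z ≠ q := by
      rintro q hq z hz rfl
      exact hz ((hQm z).1 hq)
    exact hpc (hd1 v q1 q2 c p hxq1 hq2x.symm hq12 hvc (hne q1 hq1Q c hcQ) (hne q2 hq2Q c hcQ)
      hpx.symm (hne q1 hq1Q p hp'.2) (hne q2 hq2Q p hp'.2)).symm
  · intro p hp hpx
    have hpQ : p ∈ Q := by
      rw [hQm]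
      by_contra h4
      exact hp ((hmU p).2 ⟨hpx.ne, h4⟩)
    exact hvn p hpQ hxU hpx
  · intro p hp hpx _
    rw [hQm]
    by_contra h4
    exact hp ((hmU p).2 ⟨hpx, h4⟩)
  · exact hPw.imp fun h _ _ => h
  · exact ⟨q2, (hQU2 q2 hq2Q).1, (hQU2 q2 hq2Q).2, hpend q2 hq2Q, hla q2 hq2⟩
  · exact ⟨q1, (hQU2 q1 hq1Q).1, (hQU2 q1 hq1Q).2, hpend q1 hq1Q, hhb q1 hq1⟩

end TB.PL
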