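import Pool.Agent.Lib.MP_80160f_co.PL.Path
import Pool.Agent.Lib.MP_80160f_co.PL.Rev
import Pool.Agent.Lib.MP_80160f_co.PL.Init
import Pool.Agent.Lib.MP_80160f_co.PL.Core
import Pool.Agent.Lib.MP_80160f_co.PL.Model
import Pool.Agent.Lib.MP_80160f_co.PL.Deg
import Pool.Agent.Lib.MP_80160f_co.PL.Next
import Pool.Agent.Lib.MP_80160f_co.PL.Start
import Pool.Agent.Lib.MP_80160f_co.PL.End
import Pool.Agent.Lib.MP_80160f_co.PL.Data
import Pool.Agent.Lib.MP_80160f_co.PL.Right
import Pool.Agent.Lib.MP_80160f_co.PL.Left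
import Pool.Agent.Lib.MP_80160f_co.PL.Mid
import Pool.Agent.Lib.MP_80160f_co.PL.Base
import Pool.Agent.Lib.MP_80160f_co.PL.Main

/-!
# MP_80160f_co, part PL : everything together
-/

set_option autoImplicit false

namespace TB.PL

universe u

theorem main : S_Main.{u} := by
  have hDeg : S_Deg.{u} := fDeg
  have hRight : S_Right.{u} := fRight hDeg
  exact fMain (fData (fStart fPath fInit hDeg) (fNext fPath fRev fCore fModel hDeg)
    (fEnd fCore hDeg)) hRight (fLeft hRight) fMid fBase

end TB.PL
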