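import Pool.Agent.Lib.MP_80160f_co.PL.Spec

/-!
# MP_80160f_co, PL, Left: the mirror image
-/

set_option autoImplicit false

namespace TB.PL

open Finset

universe u

theorem fLeft (h1 : S_Right.{u}) : S_Left.{u} := by
  intro V _ _ H v l r t a b R hC hF hR
  apply h1 V H v r l t (fun p => 1 - b p) (fun p => 1 - a p) R hC _ hR
  have hf := hF.fr
  refine ⟨⟨hf.vX, hf.adjr, hf.adjl, fun p hp => (hf.lr p hp).symm, hf.memr, hf.meml, ?_, ?_, ?_,
    hf.rv1, hf.lv1, ?_, ?_⟩, ?_⟩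
  · intro p hp q hq hpq htpq
    rcases hf.ty p hp q hq hpq htpq with ⟨ht, ⟨h2, h3, h4, h5⟩ | ⟨h2, h3, h4, h5⟩⟩ |
      ⟨ht, ⟨h2, h3, h4⟩ | ⟨h2, h3, h4⟩⟩
    · left
      refine ⟨ht, Or.inr ⟨h3, h2, ?_, ?_⟩⟩
      · show 1 - b q < 1 - b p
        linarith
      · show 1 - a q < 1 - a p
        linarith
    · left
      refine ⟨ht, Or.inl ⟨h3, h2, ?_, ?_⟩⟩
      · show 1 - b p < 1 - b q
        linarith
      · show 1 - a p < 1 - a q
        linarith
    · right
      refine ⟨ht, Or.inr ⟨h2, ?_, ?_⟩⟩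
      · show 1 - b p = 1 - b q
        rw [h4]
      · show 1 - a q < 1 - a p
        linarith
    · right
      refine ⟨ht, Or.inl ⟨h2, ?_, ?_⟩⟩
      · show 1 - b p < 1 - b q
        linarith
      · show 1 - a p = 1 - a q
        rw [h3]
  · intro p hp hpv
    obtain ⟨h2, h3⟩ := hf.rv p hp hpv
    refine ⟨h2, ?_⟩
    show 1 - a p = 0
    rw [h3, sub_self]
  · intro p hp hpv
    obtain ⟨h2, h3⟩ := hf.lv p hp hpv
    refine ⟨h2, ?_⟩
    show 1 - b p = 1
    rw [h3, sub_zero]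
  · intro p hp
    show 1 - b p ≤ 1
    have := hf.b0 p hp
    linarith
  · intro p hp
    show 0 ≤ 1 - a p
    have := hf.a1 p hp
    linarith
  · intro p hp hr hl
    obtain ⟨h2, h3⟩ := hF.last p hp hl hr
    refine ⟨?_, ?_⟩
    · show 1 - b p = 1
      rw [h3, sub_zero]
    · show 1 - a p = 0
      rw [h2, sub_self]

end TB.PL
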