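import Pool.Agent.Lib.MP_80160f_co.PL.Spec

/-!
# MP_80160f_co, part PL : from a connected set to a path list
-/

set_option autoImplicit false

namespace TB.PL

open Finset

universe u

namespace fPathAux

variable {V : Type u} [DecidableEq V]

/-- the entries of the prolonged ear -/
def en (x y : V) (Q : List V) (j : ℕ) : V := (x :: (Q ++ [y])).getD j x

theorem en_succ (x y : V) (Q : List V) {j : ℕ} (hj : j < Q.length) :
    en x y Q (j + 1) = Q[j] := by
  unfold en
  rw [List.getD_cons_succ, List.getD_append _ _ _ _ hj, List.getD_eq_getElem _ _ hj]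

theorem en_last (x y : V) (Q : List V) : en x y Q (Q.length + 1) = y := by
  unfold en
  rw [List.getD_cons_succ, List.getD_append_right _ _ _ _ le_rfl]
  simp

theorem en_get (x y : V) (Q : List V) {j : ℕ} (hj : j < (x :: (Q ++ [y])).length) :
    en x y Q j = (x :: (Q ++ [y]))[j] := by
  unfold en
  rw [List.getD_eq_getElem]

theorem some_en (x y : V) (Q : List V) {j : ℕ} (hj : j < Q.length + 2) :
    (x :: (Q ++ [y]))[j]? = some (en x y Q j) := by
  have h1 : j < (x :: (Q ++ [y])).length := by simp; omega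
  rw [en_get x y Q h1]
  exact List.getElem?_eq_getElem h1

theorem mem_en (x y : V) (Q : List V) {j : ℕ} (hj : j < Q.length + 2) :
    (j = 0 ∧ en x y Q j = x) ∨ en x y Q j ∈ Q ∨ (j = Q.length + 1 ∧ en x y Q j = y) := by
  rcases Nat.eq_zero_or_pos j with h | h
  · exact Or.inl ⟨h, h ▸ rfl⟩
  · obtain ⟨i, rfl⟩ := Nat.exists_eq_succ_of_ne_zero h.ne'
    by_cases h2 : i < Q.length
    · right
      left
      rw [Nat.succ_eq_add_one, en_succ x y Q h2]
      exact List.getElem_mem h2
    · right
      right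
      have h3 : i = Q.length := by omega
      subst h3
      exact ⟨rfl, en_last x y Q⟩

theorem two_edges {H : SimpleGraph V} {A B : Finset V} (h : 2 ≤ ec H A B) :
    ∃ a ∈ A, ∃ b ∈ B, ∃ a' ∈ A, ∃ b' ∈ B, H.Adj a b ∧ H.Adj a' b' ∧ ¬ (a = a' ∧ b = b') := by
  classical
  have h1 : ec H A B = ((A ×ˢ B).filter fun p => H.Adj p.1 p.2).card := by
    unfold ec wt
    rw [card_filter, sum_product]
    refine sum_congr rfl fun a _ => sum_congr rfl fun b _ => ?_
    by_cases h : H.Adj a b
    · rw [ew_adj h, if_pos h]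
    · rw [ew_not h, if_neg h]
  rw [h1] at h
  obtain ⟨p, hp, p', hp', hne⟩ := one_lt_card.mp (show 1 < _ from h)
  rw [mem_filter, mem_product] at hp hp'
  exact ⟨p.1, hp.1.1, p.2, hp.1.2, p'.1, hp'.1.1, p'.2, hp'.1.2, hp.2, hp'.2,
    fun h => hne (Prod.ext h.1 h.2)⟩

theorem three [Fintype V] {H : SimpleGraph V} {T : Finset V} {z p s w : V} (h : ec H {z} T = 2) (hp : p ∈ T)
    (hs : s ∈ T) (hw : w ∈ T) (hzp : H.Adj z p) (hzs : H.Adj z s) (hzw : H.Adj z w) (hps : p ≠ s) :
    w = p ∨ w = s := by
  classical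
  by_contra hcon
  rw [not_or] at hcon
  have h1 : ec H {z} T = (T.filter fun y => H.Adj z y).card := by
    rw [ec_single, card_filter]
    refine sum_congr rfl fun b _ => ?_
    by_cases h : H.Adj z b
    · rw [ew_adj h, if_pos h]
    · rw [ew_not h, if_neg h]
  have h2 : ({w, p, s} : Finset V) ⊆ T.filter fun y => H.Adj z y := by
    intro q hq
    simp only [mem_insert, mem_singleton] at hq
    rcases hq with rfl | rfl | rfl
    · exact mem_filter.2 ⟨hw, hzw⟩
    · exact mem_filter.2 ⟨hp, hzp⟩
    · exact mem_filter.2 ⟨hs, hzs⟩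
  have h3 := card_le_card h2
  rw [← h1, h, card_insert_of_notMem, card_pair hps] at h3
  · omega
  · simp only [mem_insert, mem_singleton, not_or]
    exact hcon

end fPathAux

open fPathAux

theorem fPath : S_Path.{u} := by
  intro V _ _ H hH U Qs hQU hne hc h2 h1
  obtain ⟨q, hq, x, hx, q', hq', y, hy, hqx, hq'y, hneq⟩ := two_edges h2
  rw [mem_compl] at hx hy
  obtain ⟨P, hP, hPQ⟩ := hc.path hq hq'
  obtain ⟨Q, hQ⟩ : ∃ Q, Q = P.support := ⟨_, rfl⟩
  have hQne : Q ≠ [] := by
    rw [hQ]
    exact P.support_ne_nil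
  have hnd : Q.Nodup := hQ ▸ hP.support_nodup
  have hQQ : ∀ z ∈ Q, z ∈ Qs := hQ ▸ hPQ
  have hhead : Q.head? = some q := by
    rw [hQ, List.head?_eq_some_head P.support_ne_nil, SimpleGraph.Walk.head_support]
  have hlast : Q.getLast? = some q' := by
    rw [hQ, List.getLast?_eq_getLast_of_ne_nil P.support_ne_nil, SimpleGraph.Walk.getLast_support]
  have hchain : Q.IsChain H.Adj := hQ ▸ P.isChain_adj_support
  have hk : 0 < Q.length := List.length_pos_iff.mpr hQne
  have hone : Q.length = 1 → x ≠ y := by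
    intro hl hxy
    rw [List.head?_eq_getElem?] at hhead
    rw [List.getLast?_eq_getElem?] at hlast
    rw [hl] at hlast
    have h3 : q = q' := by
      have h4 : some q = some q' := hhead.symm.trans hlast
      exact Option.some.inj h4
    exact hneq ⟨h3, hxy⟩
  have hch : (x :: (Q ++ [y])).IsChain H.Adj := by
    rw [List.isChain_cons, List.isChain_append]
    refine ⟨?_, hchain, List.isChain_singleton y, ?_⟩
    · intro z hz
      rw [List.head?_append, hhead] at hz
      have h4 : q = z := Option.some.inj hz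
      rw [← h4]
      exact hqx.symm
    · intro z hz w hw
      rw [hlast] at hz
      have h4 : q' = z := Option.some.inj hz
      have h5 : y = w := Option.some.inj hw
      rw [← h4, ← h5]
      exact hq'y
  have hadj : ∀ j, j < Q.length + 1 → H.Adj (en x y Q j) (en x y Q (j + 1)) := by
    intro j hj
    have h3 := List.isChain_iff_getElem.mp hch j (by simp; omega)
    rw [en_get x y Q (show j < (x :: (Q ++ [y])).length by simp; omega),
      en_get x y Q (show j + 1 < (x :: (Q ++ [y])).length by simp; omega)]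
    exact h3
  have hT : ∀ j, j < Q.length + 2 → en x y Q j ∈ (U \ Qs)ᶜ := by
    intro j hj
    rw [mem_compl, mem_sdiff, not_and, not_not]
    intro h3
    rcases mem_en x y Q hj with h4 | h4 | h4
    · rw [h4.2] at h3
      exact absurd h3 hx
    · exact hQQ _ h4
    · rw [h4.2] at h3
      exact absurd h3 hy
  have hdeg : ∀ z ∈ Qs, ec H {z} (U \ Qs)ᶜ = 2 := by
    intro z hz
    have h3 := hH.deg z
    rw [← sum_add_sum_compl (U \ Qs), ← ec_single, ← ec_single, h1 z hz] at h3
    omega
  have hdiff : ∀ i, i < Q.length → en x y Q i ≠ en x y Q (i + 2) := by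
    intro i hi he
    by_cases h3 : i + 1 < Q.length
    · have h4 := en_succ x y Q h3
      have h5 : en x y Q (i + 2) = Q[i + 1] := h4
      rw [h5] at he
      have hin : Q[i + 1] ∈ U := hQU (hQQ _ (List.getElem_mem h3))
      rcases Nat.eq_zero_or_pos i with h6 | h6
      · subst h6
        have h7 : x = Q[0 + 1] := he
        exact hx (h7 ▸ hin)
      · obtain ⟨j, rfl⟩ := Nat.exists_eq_succ_of_ne_zero h6.ne'
        have h8 : en x y Q (j + 1) = Q[j] := en_succ x y Q (by omega)
        have h7 := (List.Nodup.getElem_inj_iff hnd).mp (h8.symm.trans he)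
        omega
    · have h4 : i + 2 = Q.length + 1 := by omega
      rw [h4, en_last] at he
      rcases Nat.eq_zero_or_pos i with h6 | h6
      · subst h6
        have h7 : x = y := he
        exact hone (by omega) h7
      · obtain ⟨j, rfl⟩ := Nat.exists_eq_succ_of_ne_zero h6.ne'
        rw [Nat.succ_eq_add_one, en_succ x y Q (by omega)] at he
        exact hy (he ▸ hQU (hQQ _ (List.getElem_mem _)))
  have hnb : ∀ (i : ℕ) (hi : i < Q.length) (z : V), H.Adj Q[i] z → z ∉ U \ Qs →
      z = en x y Q i ∨ z = en x y Q (i + 2) := by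
    intro i hi z hz hzS
    have h3 := hadj i (by omega)
    have h4 := hadj (i + 1) (by omega)
    rw [en_succ x y Q hi] at h3 h4
    exact three (hdeg Q[i] (hQQ _ (List.getElem_mem hi))) (hT i (by omega)) (hT (i + 2) (by omega))
      (mem_compl.2 hzS) h3.symm h4 hz (hdiff i hi)
  refine ⟨Q, x, y, ⟨hnd, hQne, fun h => hx (hQU (hQQ x h)), fun h => hy (hQU (hQQ y h)), hch, hone,
    ?_⟩, ?_, hx, hy⟩
  · intro i hi z hz hzS
    rcases hnb i hi z hz hzS with h3 | h3
    · left
      rw [h3]
      exact some_en x y Q (by omega)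
    · right
      rw [h3]
      exact some_en x y Q (by omega)
  · intro z
    refine ⟨hQQ z, fun hz => ?_⟩
    by_contra hzQ
    have hsub : Q.toFinset ⊆ Qs := fun w hw => hQQ w (List.mem_toFinset.mp hw)
    obtain ⟨p, hp, w, hw, hwQ, hpw⟩ := hc.exists_adj hsub (a := Q[0])
      (List.mem_toFinset.mpr (List.getElem_mem hk)) hz (fun h => hzQ (List.mem_toFinset.mp h))
    rw [List.mem_toFinset] at hp hwQ
    obtain ⟨i, hi, hip⟩ := List.getElem_of_mem hp
    have hin : ∀ j, j < Q.length + 2 → w ≠ en x y Q j := by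
      intro j hj he
      rcases mem_en x y Q hj with h4 | h4 | h4
      · exact hx (h4.2 ▸ he ▸ hQU hw)
      · exact hwQ (he ▸ h4)
      · exact hy (h4.2 ▸ he ▸ hQU hw)
    rcases hnb i hi w (hip ▸ hpw) (fun h => (mem_sdiff.1 h).2 hw) with h3 | h3
    · exact hin i (by omega) h3
    · exact hin (i + 2) (by omega) h3

end TB.PL
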