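import Pool.Agent.Lib.MP_80160f_co.Vert
import Pool.Agent.Lib.MP_80160f_co.Conv

/-!
# MP_80160f_co, part PL : three 2-bases for 3-connected cubic graphs without a K33 minor

## The proof

`H` cubic and 3-edge-connected, `v` a vertex, `c` a neighbour of `v`. The vertices different from `v`
are processed along a nonseparating ear sequence (`TB.ear`): `U` = the unprocessed vertices, `U` is
connected and contains `c`. Every ear is a path `Q = q_1, ..., q_k` (a list) with two end edges
`x q_1` and `q_k y` to processed vertices `x, y` (for the first ear `x = y = v`); every vertex of the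
ear has exactly one neighbour in the rest `U \ Q`.

A processed vertex is *pending* if it has a neighbour in `U`. We keep a path `B` (a list) of processed
vertices from one neighbour of `v` to another one, which contains all the pending vertices. If `x`
is before `y` on `B` and some `z` strictly between them is pending after the ear `Q`, then there is a
model of the complete bipartite graph K33 with `{v}` as one of its branch sets: `B[..x]`, `B[y..]`,
`U \ Q` against `{v}`, the part of `B` strictly between `x` and `y`, and `Q`. Otherwise we replace this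
part of `B` by `Q`.

Every processed vertex `u` has a left neighbour `l u`, a right neighbour `r u` (its neighbours on
the path of its ear, prolonged by `x` and `y`), the number `t u` of its ear and two rational potentials
`a u` and `b u`, which strictly increase along the pending vertices of `B`. The edges are
partitioned into the edges inside of the ears (`t u = t w`), the left end edges `l w = u`, `t u < t w`
(here `a u < a w` and `b u = b w`) and the right end edges `r w = u`, `t u < t w` (here `a u = a w` and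
`b w < b u`). Each of the three sets is a 2-base of `H - v`.
-/

set_option autoImplicit false
set_option linter.unusedSectionVars false

namespace TB.PL

open Finset

universe u

/-- the list `Q` is an ear: a path whose end vertices have the further neighbours `x` and `y`; all the
other neighbours of its vertices are in `S` -/
structure EarL {V : Type u} (H : SimpleGraph V) (S : Finset V) (Q : List V) (x y : V) : Prop where
  nd : Q.Nodup
  ne : Q ≠ []
  xQ : x ∉ Q
  yQ : y ∉ Q
  ch : (x :: (Q ++ [y])).IsChain H.Adj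
  one : Q.length = 1 → x ≠ y
  nb : ∀ (i : ℕ) (hi : i < Q.length) (z : V), H.Adj Q[i] z → z ∉ S →
    (x :: (Q ++ [y]))[i]? = some z ∨ (x :: (Q ++ [y]))[i + 2]? = some z

/-- the type of the edge `p q`, where `t p ≤ t q` -/
def Ty {V : Type u} (l r : V → V) (t : V → ℕ) (a b : V → ℚ) (p q : V) : Prop :=
  (t p = t q ∧ ((r p = q ∧ l q = p ∧ a p < a q ∧ b p < b q) ∨
    (r q = p ∧ l p = q ∧ a q < a p ∧ b q < b p))) ∨
  (t p < t q ∧ ((l q = p ∧ a p < a q ∧ b p = b q) ∨ (r q = p ∧ a p = a q ∧ b q < b p)))

/-- the frame on the set `X` of the processed vertices -/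
structure Fr {V : Type u} (H : SimpleGraph V) (v : V) (X : Finset V) (l r : V → V) (t : V → ℕ)
    (a b : V → ℚ) : Prop where
  vX : v ∉ X
  adjl : ∀ p ∈ X, H.Adj p (l p)
  adjr : ∀ p ∈ X, H.Adj p (r p)
  lr : ∀ p ∈ X, l p ≠ r p
  meml : ∀ p ∈ X, l p = v ∨ (l p ∈ X ∧ t (l p) ≤ t p)
  memr : ∀ p ∈ X, r p = v ∨ (r p ∈ X ∧ t (r p) ≤ t p)
  ty : ∀ p ∈ X, ∀ q ∈ X, H.Adj p q → t p ≤ t q → Ty l r t a b p q
  lv : ∀ p ∈ X, l p = v → t p = 0 ∧ b p = 0
  rv : ∀ p ∈ X, r p = v → t p = 0 ∧ a p = 1
  lv1 : ∀ p ∈ X, ∀ q ∈ X, l p = v → l q = v → p = q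
  rv1 : ∀ p ∈ X, ∀ q ∈ X, r p = v → r q = v → p = q
  a1 : ∀ p ∈ X, a p ≤ 1
  b0 : ∀ p ∈ X, 0 ≤ b p

/-- `p` has a neighbour in `U` -/
def Pend {V : Type u} (H : SimpleGraph V) (U : Finset V) (p : V) : Prop := ∃ w ∈ U, H.Adj p w

/-- the state of the process: `U` = the unprocessed vertices -/
structure St {V : Type u} [DecidableEq V] [Fintype V] (H : SimpleGraph V) (v c : V) (U : Finset V)
    (B : List V) (l r : V → V) (t : V → ℕ) (a b : V → ℚ) : Prop where
  fr : Fr H v (Uᶜ.erase v) l r t a b
  vU : v ∉ U
  cU : c ∈ U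
  conn : ConnIn H U
  cv : H.Adj c v
  nv : ∀ p ∈ U, p ≠ c → ¬ H.Adj p v
  vn : ∀ p, p ∉ U → H.Adj p v → l p = v ∨ r p = v
  Bn : B.Nodup
  BX : ∀ p ∈ B, p ∉ U ∧ p ≠ v
  Bc : B.IsChain H.Adj
  Bh : ∃ p, B.head? = some p ∧ H.Adj p v
  Bl : ∃ p, B.getLast? = some p ∧ H.Adj p v
  pB : ∀ p, p ∉ U → p ≠ v → Pend H U p → p ∈ B
  ord : B.Pairwise fun p q => Pend H U p → Pend H U q → a p < a q ∧ b p < b q
  p1 : ∃ p, p ∉ U ∧ p ≠ v ∧ Pend H U p ∧ a p = 1
  p0 : ∃ p, p ∉ U ∧ p ≠ v ∧ Pend H U p ∧ b p = 0

/-- a model of the complete bipartite graph K33 as a minor: six pairwise disjoint connected branch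
sets `A 0, A 1, A 2, B 0, B 1, B 2` with an edge between `A i` and `B j` for all `i` and `j` -/
structure K33Model {V : Type u} (H : SimpleGraph V) (A B : Fin 3 → Set V) : Prop where
  connA : ∀ i, (H.induce (A i)).Connected
  connB : ∀ i, (H.induce (B i)).Connected
  disA : ∀ i j, i ≠ j → Disjoint (A i) (A j)
  disB : ∀ i j, i ≠ j → Disjoint (B i) (B j)
  disAB : ∀ i j, Disjoint (A i) (B j)
  adj : ∀ i j, ∃ p ∈ A i, ∃ q ∈ B j, H.Adj p q

/-- `R` is an equivalence relation on the vertices different from `v` which contains the edges in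
`E` and merges two classes joined by two edges -/
structure Cl {V : Type u} (H : SimpleGraph V) (v : V) (E : V → V → Prop) (R : V → V → Prop) :
    Prop where
  refl : ∀ p, p ≠ v → R p p
  symm : ∀ p q, R p q → R q p
  trans : ∀ p q s, R p q → R q s → R p s
  edge : ∀ p q, p ≠ v → q ≠ v → H.Adj p q → E p q → R p q
  merge : ∀ p q p' q', p ≠ v → q ≠ v → p' ≠ v → q' ≠ v → R p p' → R q q' → ¬ (p = p' ∧ q = q') →
    H.Adj p q → H.Adj p' q' → R p q

/-- the final data: a frame on all the vertices different from `v` -/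
structure Fin0 {V : Type u} [DecidableEq V] [Fintype V] (H : SimpleGraph V) (v : V) (l r : V → V)
    (t : V → ℕ) (a b : V → ℚ) : Prop where
  fr : Fr H v (univ.erase v) l r t a b
  last : ∀ p, H.Adj p v → l p ≠ v → r p ≠ v → a p = 1 ∧ b p = 0

/-- **S_Path** (from the set given by `TB.ear` to a list). PROOF. For `z ∈ Qs` we have
`ec H {z} (U \ Qs) = 1`, hence `z` has exactly two neighbours in `Qs ∪ Uᶜ` (`Cubic3.deg_eq`).
Choose two different edges between `Qs` and `Uᶜ` (they exist by `2 ≤ ec H Qs Uᶜ`): `q x` and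
`q' y` with `q, q' ∈ Qs`, `x, y ∉ U`, `(q, x) ≠ (q', y)`. Let `Q` be the support of a path
(`SimpleGraph.Walk.IsPath`, from `Walk.toPath`/`bypass`) from `q` to `q'` in `inG H Qs` (`Qs` is connected;
the list is `[q]` if `q = q'`). Every vertex of `Q` has in `x :: (Q ++ [y])` a predecessor and a successor, and
they are two DIFFERENT neighbours of it in `Qs ∪ Uᶜ` (if `Q` has at least two vertices they are
different because the path has no repetition and `x, y ∉ Qs`; if `Q = [q]`, `q = q'` and
`x ≠ y`). So these are all its neighbours in `Qs ∪ Uᶜ`: this is `nb`, and no vertex of `Q` has a neighbour in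
`Qs \ Q`. As `Qs` is connected, `Q` is all of `Qs` (`ConnIn.exists_adj`). -/
def S_Path : Prop :=
  ∀ (V : Type u) [DecidableEq V] [Fintype V] (H : SimpleGraph V), Cubic3 H →
    ∀ (U Qs : Finset V), Qs ⊆ U → Qs.Nonempty → ConnIn H Qs → 2 ≤ ec H Qs Uᶜ →
      (∀ q ∈ Qs, ec H {q} (U \ Qs) = 1) →
      ∃ (Q : List V) (x y : V), EarL H (U \ Qs) Q x y ∧ (∀ z, z ∈ Q ↔ z ∈ Qs) ∧ x ∉ U ∧ y ∉ U

/-- **S_Rev** (the reversed ear). PROOF. `y :: (Q.reverse ++ [x])` is the reverse of
`x :: (Q ++ [y])`, which has length `k + 2` with `k = Q.length`; index `i` of `Q.reverse` is index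
`k - 1 - i` of `Q`, so `nb` is exchanged; for `ch` use `List.isChain_reverse` and the symmetry of `H`. -/
def S_Rev : Prop :=
  ∀ (V : Type u) (H : SimpleGraph V) (S : Finset V) (Q : List V) (x y : V),
    EarL H S Q x y → EarL H S Q.reverse y x

/-- **S_Init** (the frame on the first ear). PROOF. Let `k = Q.length`; `k ≠ 1` because `one` would give
`v ≠ v`, so `k ≥ 2`. For `p ∈ Q` with index `i = Q.idxOf p` put `l p` = the entry number `i` and `r p` =
the entry number `i + 2` of the list `v :: (Q ++ [v])`, `t p = 0` and `a p = b p = i / (k - 1)` (rational).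
All the fields of `Fr` are then direct: `l p ≠ r p` since `Q` has no repetition, `v ∉ Q` and `k ≥ 2`
(so not both of them are `v`); `l p = v` only for the first and `r p = v` only for the last vertex;
`ty`: by `nb` two adjacent vertices of `Q` are consecutive. -/
def S_Init : Prop :=
  ∀ (V : Type u) [DecidableEq V] (H : SimpleGraph V) (v : V) (S : Finset V) (Q : List V),
    EarL H S Q v v → (∀ p ∈ Q, p ∉ S) →
      ∃ (l r : V → V) (t : V → ℕ) (a b : V → ℚ), Fr H v Q.toFinset l r t a b ∧
        Q.Pairwise (fun p q => a p < a q ∧ b p < b q) ∧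
        (∀ p, Q.getLast? = some p → a p = 1) ∧ (∀ p, Q.head? = some p → b p = 0) ∧
        (∀ p ∈ Q, v ∉ S → H.Adj p v → l p = v ∨ r p = v)

/-- **S_Core** (the frame after a further ear). PROOF. Let `k = Q.length`, `N` a bound with `t p < N` for all `p ∈ X`
(`X` is finite). For `p ∈ Q` with index `i = Q.idxOf p` put `l' p` = the entry number `i` and `r' p` =
the entry number `i + 2` of `x :: (Q ++ [y])`, `t' p = N`, `a' p = a x + (a y - a x) * ((i + 1) / k)` and
`b' p = b x + (b y - b x) * (i / k)`; for `p ∉ Q` nothing is changed. New edges of the frame are, by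
`nb`, only the consecutive pairs of the list `x :: (Q ++ [y])`: inside of `Q` both potentials increase
strictly, at the left end `a x < a' q_1`, `b x = b' q_1`, at the right end `a' q_k = a y`,
`b' q_k < b y`. `l' p ≠ r' p`: `Q` has no repetition, `x, y ∉ Q` and `x ≠ y` (as `a x < a y`). -/
def S_Core : Prop :=
  ∀ (V : Type u) [DecidableEq V] (H : SimpleGraph V) (v : V) (X S : Finset V) (l r : V → V)
    (t : V → ℕ) (a b : V → ℚ) (Q : List V) (x y : V),
    Fr H v X l r t a b → EarL H S Q x y → (∀ p ∈ Q, p ∉ X ∧ p ≠ v ∧ p ∉ S) → (∀ p ∈ X, p ∉ S) →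
    x ∈ X → y ∈ X → a x < a y → b x < b y →
      ∃ (l' r' : V → V) (t' : V → ℕ) (a' b' : V → ℚ), Fr H v (X ∪ Q.toFinset) l' r' t' a' b' ∧
        (∀ p ∈ X, l' p = l p ∧ r' p = r p ∧ a' p = a p ∧ b' p = b p) ∧
        (∀ p ∈ Q, a x < a' p ∧ a' p ≤ a y ∧ b x ≤ b' p ∧ b' p < b y) ∧
        Q.Pairwise (fun p q => a' p < a' q ∧ b' p < b' q) ∧
        (∀ p, Q.getLast? = some p → a' p = a y) ∧ (∀ p, Q.head? = some p → b' p = b x)

/-- **S_Model** (the K33 model). Take `A 0` = the vertices of `L1 ++ [x]`, `A 1` = the vertices of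
`y :: L3`, `A 2 = D`, `B 0 = {v}`, `B 1` = the vertices of `M`, `B 2 = Qs`. The sets of vertices of
nonempty parts of the path `L1 ++ x :: (M ++ y :: L3)` are connected, `x` is adjacent to the first
vertex of `M` and the last vertex of `M` is adjacent to `y`. -/
def S_Model : Prop :=
  ∀ (V : Type u) [DecidableEq V] (H : SimpleGraph V) (v x y z : V) (D Qs : Finset V)
    (L1 M L3 : List V),
    (L1 ++ x :: (M ++ y :: L3)).Nodup → (L1 ++ x :: (M ++ y :: L3)).IsChain H.Adj →
    (∀ p ∈ L1 ++ x :: (M ++ y :: L3), p ∉ D ∧ p ∉ Qs ∧ p ≠ v) → Disjoint D Qs → v ∉ D → v ∉ Qs →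
    (∃ p, (L1 ++ x :: (M ++ y :: L3)).head? = some p ∧ H.Adj p v) →
    (∃ p, (L1 ++ x :: (M ++ y :: L3)).getLast? = some p ∧ H.Adj p v) →
    ConnIn H D → ConnIn H Qs → z ∈ M → Pend H D z → Pend H Qs x → Pend H Qs y → Pend H D v →
    (∃ q ∈ Qs, Pend H D q) →
      ∃ A B : Fin 3 → Set V, K33Model H A B ∧ B 0 = {v}

/-- **S_Deg** (a processed vertex has only one further neighbour). PROOF. The three neighbours `l p`,
`r p`, `q` are different and `p` has degree 3. -/
def S_Deg : Prop :=
  ∀ (V : Type u) [DecidableEq V] [Fintype V] (H : SimpleGraph V), Cubic3 H →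
    (∀ p m n q q' : V, H.Adj p m → H.Adj p n → m ≠ n → H.Adj p q → q ≠ m → q ≠ n →
      H.Adj p q' → q' ≠ m → q' ≠ n → q = q') ∧
    (∀ p m n : V, ∃ q, H.Adj p q ∧ q ≠ m ∧ q ≠ n) ∧
    (∀ p : V, ∀ S : Finset V, ec H {p} S = 1 → Pend H S p)

/-- **S_Next** (one step). PROOF. `TB.ear` for `U`, `c` gives `Qs`, and `S_Path` gives the list `Q` with
`x`, `y`. Put `U' = U \ Qs`, `X = Uᶜ.erase v`. (1) `x ≠ v`: `x` is adjacent to the first vertex of `Q`, which is in
`U` and different from `c` (`nv`); the same for `y`. So `x, y ∈ X`, both are pending, so both are in `B`.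
(2) `x ≠ y`: otherwise (`one`) `Q` has at least two vertices and `x` has two different neighbours in
`U`, the first and the last vertex of `Q`, which contradicts `S_Deg` (`l x`, `r x` are not in `U`). (3) One
of them is before the other one in `B`; by `S_Rev` (replace `Q` by its reverse) we may assume `B =
L1 ++ x :: (M ++ y :: L3)` (`List.append_of_mem` twice), so `a x < a y` and `b x < b y` by `ord`. (4) No `z` in
`M` has a neighbour in `U'`: otherwise `S_Model` with `D = U'` contradicts the hypothesis `hK` (`c ∈ U'` is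
adjacent to `v`, every vertex of `Qs` has a neighbour in `U'` by `S_Deg`). (5) The new list is `B' =
L1 ++ x :: (Q ++ y :: L3)` and the new frame is given by `S_Core` (with `S = U'`; note
`X ∪ Q.toFinset = U'ᶜ.erase v`). (6) `x` and `y` are not pending for `U'` (`S_Deg`: their only neighbours in `U` are
in `Qs`); a vertex `p ∈ X` which has a neighbour in `Qs` is `x` or `y` (`nb`). Every vertex of `Q` is
pending for `U'`. With this: `pB`: a pending `p ∉ U'` is in `Q`, or it was pending before, so it is in `B`
and not in `M`. `ord`: for `L1` and `L3` as before; `p ∈ L1` pending, `q ∈ Q`: `a p < a x < a' q`,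
`b p < b x ≤ b' q`; `q ∈ Q`, `p ∈ L3` pending: `a' q ≤ a y < a p`, `b' q < b y < b p`. `p1`: the old
vertex `p` with `a p = 1` is not `x` (`a x < a y ≤ 1`); if it is `y`, take the last vertex of `Q`;
otherwise it is still pending. `p0` in the same way with `b y > b x ≥ 0` and the first vertex of `Q`. -/
def S_Next : Prop :=
  ∀ (V : Type u) [DecidableEq V] [Fintype V] (H : SimpleGraph V) (v c : V) (U : Finset V)
    (B : List V) (l r : V → V) (t : V → ℕ) (a b : V → ℚ), Cubic3 H →
    (∀ A B : Fin 3 → Set V, K33Model H A B → B 0 ≠ {v}) → St H v c U B l r t a b →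
    (∃ p ∈ U, p ≠ c) →
      ∃ (U' : Finset V) (B' : List V) (l' r' : V → V) (t' : V → ℕ) (a' b' : V → ℚ),
        U'.card < U.card ∧ St H v c U' B' l' r' t' a' b'

/-- **S_Start**. PROOF. `c` = a neighbour of `v`, `U0 = univ.erase v` (connected: `Cubic3.conn_erase`).
`TB.ear` for `U0`, `c` gives `Qs`, `S_Path` the list `Q` with `x, y ∉ U0`, so `x = y = v`. Take
`U = U0 \ Qs`, `B = Q` and the frame of `S_Init` with `S = U`. `nv`: `v` has the two neighbours first and last
vertex of `Q` (they are different: `Q.length ≠ 1`) and `c`, and no further one (`S_Deg`). All vertices of `Q` are pending.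
`Q.toFinset = Uᶜ.erase v`. -/
def S_Start : Prop :=
  ∀ (V : Type u) [DecidableEq V] [Fintype V] (H : SimpleGraph V) (v : V), Cubic3 H →
    ∃ (c : V) (U : Finset V) (B : List V) (l r : V → V) (t : V → ℕ) (a b : V → ℚ),
      St H v c U B l r t a b

/-- **S_End** (the last vertex). PROOF. The neighbours of `c` are `v` and two others `x ≠ y` (`S_Deg`), which
are not in `U = {c}`, so they are pending and in `B`; by `ord` we may assume `a x < a y` and
`b x < b y`. `EarL H {v} [c] x y` holds, so `S_Core` with `S = {v}` gives the frame on `univ.erase v`. `last`: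
`p ≠ c` with `H.Adj p v` has `l p = v` or `r p = v` (`vn`; `l' p = l p`); for `p = c`: `a' c = a y`
and `b' c = b x`; the pending vertex of `p1` is `x` or `y` (it is adjacent to `c` and not `v`), it is not
`x` since `a x < a y ≤ 1`, so `a y = 1`; in the same way `b x = 0`. -/
def S_End : Prop :=
  ∀ (V : Type u) [DecidableEq V] [Fintype V] (H : SimpleGraph V) (v c : V)
    (B : List V) (l r : V → V) (t : V → ℕ) (a b : V → ℚ), Cubic3 H →
    St H v c {c} B l r t a b →
      ∃ (l' r' : V → V) (t' : V → ℕ) (a' b' : V → ℚ), Fin0 H v l' r' t' a' b'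

/-- **S_Data** (induction on the number of unprocessed vertices, from `S_Start`, `S_Next`, `S_End`; if all
vertices of `U` are equal to `c` then `U = {c}`). -/
def S_Data : Prop :=
  ∀ (V : Type u) [DecidableEq V] [Fintype V] (H : SimpleGraph V) (v : V), Cubic3 H →
    (∀ A B : Fin 3 → Set V, K33Model H A B → B 0 ≠ {v}) →
      ∃ (l r : V → V) (t : V → ℕ) (a b : V → ℚ), Fin0 H v l r t a b

/-- **S_Right** (the right end edges). PROOF. (back) For every `p ≠ v` there is `p0 ≠ v` with `R p p0`,
`a p0 = a p` and either `r p0 = v` or `a p0 < a (r p0)` with `r p0 ≠ v`: induction on `t p`; let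
`w = r p ≠ v`, `t w ≤ t p` (`memr`); the type (`ty`) of the edge `w p` is: `t w = t p` and `r p = w`,
`a p < a w` (take `p0 = p`; the second possibility of `t w = t p` contains `l p = w = r p`,
impossible), or `t w < t p` and (`l p = w`: impossible, or `a w = a p` and the edge is in `E`, so
`R w p`: continue with `w`). (fwd) For every `p ≠ v` with `a p < 1` there are `p1 ≠ v` with `R p p1` and `w ≠ v`
adjacent to `p1` with `w ≠ r p1`, `a p < a w`: induction (on a bound minus `t p`, the graph is finite);
let `w` be the neighbour of `p` different from `l p`, `r p` (`S_Deg`); `w ≠ v`, because `a p < 1` (`last`); by `ty`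
the edge `p w` satisfies `t p < t w` and either `l w = p`, `a p < a w` (take `p1 = p`), or `r w = p`,
`a p = a w`, the edge is in `E`: continue with `w` (`a w < 1` and `t w > t p`). (main) Fix `z`
with `r z = v` if there is one. All `p` satisfy `R p z`: strong induction on `a p` (downwards, finitely many values; e.g.
on the number of `q` with `a q > a p`). If `a p = 1`, (back) gives `p0` with `r p0 = v` (`a (r p0) ≤ 1`), so
`p0 = z` (`rv1`). If `a p < 1`, (back) gives `p0`, `w0 = r p0` with `a w0 > a p` (`r p0 = v` would give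
`a p0 = 1`) and (fwd) gives `p1`, `w1`; by induction `R w0 z`, `R w1 z`, so `R w0 w1`, `R p0 p1`, and `merge`
gives `R p0 w0` (`w1 ≠ r p1`, so not both `p0 = p1` and `w0 = w1`). The existence of `z`: there is `p` with
`a p = 1` or the largest value of `a` leads by (back), (fwd) to a contradiction. -/
def S_Right : Prop :=
  ∀ (V : Type u) [DecidableEq V] [Fintype V] (H : SimpleGraph V) (v : V) (l r : V → V) (t : V → ℕ)
    (a b : V → ℚ) (R : V → V → Prop), Cubic3 H → Fin0 H v l r t a b →
    Cl H v (fun p q => t p < t q ∧ r q = p) R → ∀ p q, p ≠ v → q ≠ v → R p q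

/-- **S_Left** (the left end edges): `S_Right` for the mirror image `l' = r`, `r' = l`, `a' = 1 - b`,
`b' = 1 - a`, which satisfies `Fin0` again. -/
def S_Left : Prop :=
  ∀ (V : Type u) [DecidableEq V] [Fintype V] (H : SimpleGraph V) (v : V) (l r : V → V) (t : V → ℕ)
    (a b : V → ℚ) (R : V → V → Prop), Cubic3 H → Fin0 H v l r t a b →
    Cl H v (fun p q => t p < t q ∧ l q = p) R → ∀ p q, p ≠ v → q ≠ v → R p q

/-- **S_Mid** (the edges inside of the ears). PROOF. (right) For every `p ≠ v` there is `p1 ≠ v` with `R p p1`,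
`t p1 = t p` and either `r p1 = v` or (`r p1 ≠ v` and `t (r p1) < t p`): induction on the number of `q`
with `a q > a p`; if `w = r p ≠ v` and `t w = t p` then by `ty` (`r w = p ∧ l p = w` is impossible)
`a p < a w` and the edge is in `E`. (left) in the same way with `l` and decreasing `a`. Strong induction on
`t p`: all vertices with a smaller `t` are related to each other. If `t p = 0`, (right) gives `r p1 = v`
and all such `p1` are equal (`rv1`). If `t p > 0`: `p1` and `p2` of (right) and (left) are not at `v`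
(`rv`, `lv`), the vertices `r p1` and `l p2` have smaller `t`, they are related, `R p1 p2`, and
`¬ (p1 = p2 ∧ r p1 = l p2)` by `lr`: `merge` gives `R p1 (r p1)`. So every vertex is related to all vertices of
smaller `t` (if there is one, e.g. `r p1`), and all vertices of the same `t` are related. -/
def S_Mid : Prop :=
  ∀ (V : Type u) [DecidableEq V] [Fintype V] (H : SimpleGraph V) (v : V) (l r : V → V) (t : V → ℕ)
    (a b : V → ℚ) (R : V → V → Prop), Cubic3 H → Fin0 H v l r t a b →
    Cl H v (fun p q => t p = t q) R → ∀ p q, p ≠ v → q ≠ v → R p q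

/-- **S_Base** (from relations to 2-bases). PROOF. `isKBase_of_clu`: let `W = gw G A` on the subtype,
`A` the set of the statement. Apply the hypothesis to `R p q := ∃ hp hq, Same W ⟨p, hp⟩ ⟨q, hq⟩`, which
satisfies `Cl` by `Same.refl`, `Same.symm`, `Same.trans`, `same_of_two` and `same_of_pairs` (`Conv.lean`). So any
two vertices of the subtype are in a common cluster; a cluster of maximal cardinality is `univ`. -/
def S_Base : Prop :=
  ∀ (V : Type u) [DecidableEq V] [Fintype V] (H : SimpleGraph V) (v : V) (E : V → V → Prop),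
    (∃ p, p ≠ v) → (∀ R : V → V → Prop, Cl H v E R → ∀ p q, p ≠ v → q ≠ v → R p q) →
      IsKBase (H.induce ({v}ᶜ : Set V)) 2
        {e | ∃ p q : ({v}ᶜ : Set V), e = s(p, q) ∧ H.Adj (p : V) q ∧ E p q}

/-- **S_Main** (assembly). PROOF. `S_Data`, and the three sets of `S_Base` for the three relations of `S_Mid`,
`S_Left` and `S_Right`. Partition: an edge `p q` with `t p ≤ t q` is by `ty` in exactly one of the three sets
(`t p = t q`; `t p < t q` and `l q = p`; `t p < t q` and `r q = p`; the last two exclude each other by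
`lr`; the first one excludes them because `t p < t q`, also when the names of the ends are exchanged). -/
def S_Main : Prop :=
  ∀ (V : Type u) [DecidableEq V] [Fintype V] (H : SimpleGraph V) (v : V), Cubic3 H →
    (∀ A B : Fin 3 → Set V, K33Model H A B → B 0 ≠ {v}) →
      ∃ B₁ B₂ B₃ : Set (Sym2 ({v}ᶜ : Set V)),
        Disjoint B₁ B₂ ∧ Disjoint B₁ B₃ ∧ Disjoint B₂ B₃ ∧
        B₁ ∪ B₂ ∪ B₃ = (H.induce ({v}ᶜ : Set V)).edgeSet ∧
        IsKBase (H.induce ({v}ᶜ : Set V)) 2 B₁ ∧ IsKBase (H.induce ({v}ᶜ : Set V)) 2 B₂ ∧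
        IsKBase (H.induce ({v}ᶜ : Set V)) 2 B₃

end TB.PL
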